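import Mathlib
import Pool.Agent.H507_U.PosDefs

/-!
Generic sequences, for finitely many parameters.
-/

set_option autoImplicit false

namespace Pool.Agent.H679UL

open Set
open Pool.Agent.H507_U (W pt g0 Star Sq)

/-- parameters: `n` pairs of a point and an enumeration, and one more enumeration -/
abbrev PN (n : ℕ) : Type := (Fin n → (ℕ → Bool) × (ℕ → ℕ)) × (ℕ → ℕ)

/-- the functions `h ν` are generic over finitely many parameters -/
def GenHN {K : Type} [LinearOrder K] (σ : Sq K) : Prop :=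
  ∀ (n : ℕ) (B : Set ((PN n × (ℕ → ℕ)) × (ℕ → ℕ))), MeasurableSet B →
    ∃ ξ, ∀ ν, ξ < ν → ∀ (μ β : Fin n → K) (γ : K), (∀ i, μ i < ν) → (∀ i, β i < ν) → γ < ν →
      IsMeagre {z | ((((fun i => (σ.x (μ i), σ.g (β i))), σ.g γ), σ.k ν), z) ∈ B} →
        ((((fun i => (σ.x (μ i), σ.g (β i))), σ.g γ), σ.k ν), σ.h ν) ∉ B

/-- the labellings `v ν` are generic over finitely many parameters -/
def GenVN {K : Type} [LinearOrder K] (σ : Sq K) : Prop :=
  ∀ (n : ℕ) (B : Set (PN n × W)), MeasurableSet B →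
    ∃ ξ, ∀ ν, ξ < ν → ∀ (μ β : Fin n → K) (γ : K), (∀ i, μ i < ν) → (∀ i, β i ≤ ν) → γ ≤ ν →
      IsMeagre {z | (((fun i => (σ.x (μ i), σ.g (β i))), σ.g γ), z) ∈ B} →
        (((fun i => (σ.x (μ i), σ.g (β i))), σ.g γ), σ.v ν) ∉ B

/-- the space of one coordinate -/
abbrev ZZ : Type := W × (ℕ → Bool)

/-- Evaluation: `s i = 0`: the point is the parameter; `s i = 1`: the point is given by the
parameter enumeration and a variable labelling; `s i = 2`: the point is variable. -/
def ev {n : ℕ} (s : Fin n → Fin 3) (p : Fin n → (ℕ → Bool) × (ℕ → ℕ)) (z : Fin n → ZZ) :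
    Fin n → ℕ → Bool :=
  fun i => if s i = 0 then (p i).1 else if s i = 1 then pt (p i).2 (z i).1 else (z i).2

/-- the section of `N` is meagre -/
def MG {n : ℕ} (N : Set ((Fin n → ℕ → Bool) × (ℕ → ℕ))) (s : Fin n → Fin 3) (p : PN n) : Prop :=
  IsMeagre {z : Fin n → ZZ | (ev s p.1 z, p.2) ∈ N}

instance zz_cm : TopologicalSpace.IsCompletelyMetrizableSpace W :=
  (Pool.Agent.H507_U.W_closed.isClosedEmbedding_subtypeVal).IsCompletelyMetrizableSpace

instance zz_baire (n : ℕ) : BaireSpace (Fin n → ZZ) := by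
  let _ := TopologicalSpace.upgradeIsCompletelyMetrizable (Fin n → ZZ)
  infer_instance

end Pool.Agent.H679UL
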