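import Mathlib
import Pool.Agent.H679UL.PosDefs
import Pool.Agent.H507_U.Cat
import Pool.Agent.H507_U.Pts

set_option autoImplicit false

namespace Pool.Agent.H679UL

open Set MeasurableSpace
open scoped MeasureTheory
open Pool.Agent.H507_U (W pt g0 Star Sq)

universe u

theorem j9_cyl {n : ℕ} (U : Set (Fin n → ZZ)) (hU : IsOpen U) (z₀ : Fin n → ZZ) (hz : z₀ ∈ U) :
    ∃ (S : Finset (List ℕ)) (m : ℕ), ∀ z : Fin n → ZZ,
      (∀ i, (∀ s ∈ S, (z i).1.1 s = (z₀ i).1.1 s) ∧ ∀ j < m, (z i).2 j = (z₀ i).2 j) → z ∈ U := by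
  classical
  rw [isOpen_pi_iff] at hU
  obtain ⟨I, u, h1, h2⟩ := hU z₀ hz
  have h3 : ∀ i : Fin n, ∃ (S : Finset (List ℕ)) (m : ℕ), i ∈ I → ∀ w : ZZ,
      (∀ s ∈ S, w.1.1 s = (z₀ i).1.1 s) → (∀ j < m, w.2 j = (z₀ i).2 j) → w ∈ u i := by
    intro i
    by_cases hi : i ∈ I
    · obtain ⟨ho, hm⟩ := h1 i hi
      obtain ⟨A, B, hA, hB, hzA, hzB, hAB⟩ := isOpen_prod_iff.mp ho (z₀ i).1 (z₀ i).2 hm
      obtain ⟨S, hS⟩ := Pool.Agent.H507_U.f1_cylW A hA _ hzA
      obtain ⟨m, hm⟩ := Pool.Agent.H507_U.f1_cylN B hB _ hzB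
      exact ⟨S, m, fun _ w hw1 hw2 => hAB ⟨hS w.1 hw1, hm w.2 hw2⟩⟩
    · exact ⟨∅, 0, fun h => absurd h hi⟩
  choose S m hSm using h3
  refine ⟨Finset.univ.biUnion S, Finset.univ.sup m, fun z hz => h2 ?_⟩
  intro i hi
  refine hSm i hi (z i) (fun s hs => (hz i).1 s ?_) (fun j hj => (hz i).2 j ?_)
  · exact Finset.mem_biUnion.mpr ⟨i, Finset.mem_univ i, hs⟩
  · exact lt_of_lt_of_le hj (Finset.le_sup (f := m) (Finset.mem_univ i))

theorem j9_open {n : ℕ} (S : Finset (List ℕ)) (m : ℕ) (v : Fin n → W) (c : Fin n → ℕ → Bool) :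
    IsOpen {z : Fin n → ZZ | ∀ i, (∀ s ∈ S, (z i).1.1 s = (v i).1 s) ∧ ∀ j < m, (z i).2 j = c i j} := by
  have h : {z : Fin n → ZZ | ∀ i, (∀ s ∈ S, (z i).1.1 s = (v i).1 s) ∧ ∀ j < m, (z i).2 j = c i j} =
      ⋂ i : Fin n, ((⋂ s ∈ S, {z : Fin n → ZZ | (z i).1.1 s = (v i).1 s}) ∩
        ⋂ j ∈ Finset.range m, {z : Fin n → ZZ | (z i).2 j = c i j}) := by
    ext z
    simp
  rw [h]
  refine isOpen_iInter_of_finite fun i => IsOpen.inter ?_ ?_
  · refine isOpen_biInter_finset fun s _ => ?_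
    have hc : Continuous fun z : Fin n → ZZ => (z i).1.1 s :=
      (continuous_apply s).comp (continuous_subtype_val.comp
        (continuous_fst.comp (continuous_apply i)))
    exact (isOpen_discrete ({(v i).1 s} : Set Bool)).preimage hc
  · refine isOpen_biInter_finset fun j _ => ?_
    have hc : Continuous fun z : Fin n → ZZ => (z i).2 j :=
      (continuous_apply j).comp (continuous_snd.comp (continuous_apply i))
    exact (isOpen_discrete ({c i j} : Set Bool)).preimage hc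

theorem j9_key {n : ℕ} (k : ℕ → ℕ) (hk : Star k) (S : Finset (List ℕ)) (v : Fin n → W)
    (h₀ : ℕ → ℕ) (m : ℕ) (x : Fin n → ℕ → Bool) (G : Finset (Fin n))
    (hS : ∀ j < m, Pool.Agent.H507_U.nd (k (h₀ j)) ∈ S)
    (e : ∀ i ∈ G, ∀ j < m, x i j = (v i).1 (Pool.Agent.H507_U.nd (k (h₀ j)))) (m' : ℕ) :
    ∃ (h : ℕ → ℕ) (w : Fin n → W) (S' : Finset (List ℕ)), S ⊆ S' ∧ (∀ j < m, h j = h₀ j) ∧
      (∀ i, ∀ s ∈ S, (w i).1 s = (v i).1 s) ∧ (∀ i, ∀ s, s ∉ S' → (w i).1 s = false) ∧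
      ∀ j < m + m', Pool.Agent.H507_U.nd (k (h j)) ∈ S' ∧
        ∀ i ∈ G, (w i).1 (Pool.Agent.H507_U.nd (k (h j))) = x i j := by
  classical
  induction m' with
  | zero =>
    choose w a b using fun i => Pool.Agent.H507_U.f1_res S (v i)
    refine ⟨h₀, w, S, Finset.Subset.refl _, fun _ _ => rfl, a, b, ?_⟩
    intro j hj
    have hj' : j < m := by omega
    exact ⟨hS j hj', fun i hi => (a i _ (hS j hj')).trans (e i hi j hj').symm⟩
  | succ m' ih =>
    obtain ⟨h, w, S', hSS, hh, a, b, hx⟩ := ih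
    obtain ⟨j, c1, c2, c3⟩ := hk S'
    choose w' d d' d'' using fun i => Pool.Agent.H507_U.f1_upd S' (w i) (b i) _ c1 c2 c3 (x i (m + m'))
    refine ⟨Function.update h (m + m') j, w', insert (Pool.Agent.H507_U.nd (k j)) S',
      hSS.trans (Finset.subset_insert _ _), ?_, ?_, d', ?_⟩
    · intro l hl
      rw [Function.update_of_ne (by omega)]
      exact hh l hl
    · intro i s hs
      rw [d i s (hSS hs)]
      exact a i s hs
    · intro l hl
      by_cases hl2 : l = m + m'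
      · subst hl2
        rw [Function.update_self]
        exact ⟨Finset.mem_insert_self _ _, fun i _ => d'' i⟩
      · rw [Function.update_of_ne hl2]
        obtain ⟨g1, g2⟩ := hx l (by omega)
        refine ⟨Finset.mem_insert_of_mem g1, fun i hi => ?_⟩
        rw [d i _ g1]
        exact g2 i hi

/-- the map -/
noncomputable def j9_phi {n : ℕ} (G : Finset (Fin n)) (k : ℕ → ℕ)
    (p : (ℕ → ℕ) × (Fin n → ZZ)) : Fin n → ZZ :=
  fun i => if i ∈ G then ((p.2 i).1, pt (fun m => k (p.1 m)) (p.2 i).1) else p.2 i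

theorem j9_cont {n : ℕ} (G : Finset (Fin n)) (k : ℕ → ℕ) : Continuous (j9_phi G k) := by
  refine continuous_pi fun i => ?_
  have hkc : Continuous fun h : ℕ → ℕ => fun n => k (h n) :=
    continuous_pi fun n => (continuous_of_discreteTopology (f := k)).comp (continuous_apply n)
  have h0 : Continuous fun p : (ℕ → ℕ) × (Fin n → ZZ) => p.2 i :=
    (continuous_apply i).comp continuous_snd
  unfold j9_phi
  by_cases hi : i ∈ G
  · simp only [if_pos hi]
    exact (continuous_fst.comp h0).prodMk (Pool.Agent.H507_U.continuous_pt.comp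
      ((hkc.comp continuous_fst).prodMk (continuous_fst.comp h0)))
  · simp only [if_neg hi]
    exact h0

theorem j9_dense {n : ℕ} (G : Finset (Fin n)) (k : ℕ → ℕ) (hk : Star k)
    (U : Set ((ℕ → ℕ) × (Fin n → ZZ))) (hU : IsOpen U) (hne : U.Nonempty) :
    (interior (closure (j9_phi G k '' U))).Nonempty := by
  classical
  obtain ⟨⟨f₀, z₀⟩, hp⟩ := hne
  obtain ⟨A, B, hA, hB, hfA, hzB, hAB⟩ := isOpen_prod_iff.mp hU f₀ z₀ hp
  obtain ⟨ma, hma⟩ := Pool.Agent.H507_U.f1_cylN A hA f₀ hfA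
  obtain ⟨S₀, mb, hSb⟩ := j9_cyl B hB z₀ hzB
  set m : ℕ := max ma mb with hm
  let S : Finset (List ℕ) := S₀ ∪ (Finset.range m).image (fun j => Pool.Agent.H507_U.nd (k (f₀ j)))
  have hS : ∀ j < m, Pool.Agent.H507_U.nd (k (f₀ j)) ∈ S := fun j hj =>
    Finset.mem_union_right _ (Finset.mem_image.mpr ⟨j, Finset.mem_range.mpr hj, rfl⟩)
  let c : Fin n → ℕ → Bool := fun i j =>
    if i ∈ G then (z₀ i).1.1 (Pool.Agent.H507_U.nd (k (f₀ j))) else (z₀ i).2 j
  have hOo := j9_open S m (fun i => (z₀ i).1) c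
  refine ⟨fun i => ((z₀ i).1, c i), ?_⟩
  refine interior_maximal ?_ hOo (fun i => ⟨fun s _ => rfl, fun j _ => rfl⟩)
  intro zs hzs
  rw [mem_closure_iff]
  intro V hV hzV
  obtain ⟨S₁, m₁, hS1⟩ := j9_cyl V hV zs hzV
  have e : ∀ i ∈ G, ∀ j < m, (zs i).2 j = ((zs i).1).1 (Pool.Agent.H507_U.nd (k (f₀ j))) := by
    intro i hi j hj
    have h1 := (hzs i).2 j hj
    have h2 := (hzs i).1 _ (hS j hj)
    rw [h1, h2]
    simp only [c, if_pos hi]
  obtain ⟨f, w, S', hSS', hf, hw, _, hx⟩ := j9_key k hk (S ∪ S₁) (fun i => (zs i).1) f₀ m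
    (fun i => (zs i).2) G (fun j hj => Finset.mem_union_left _ (hS j hj)) e m₁
  let z : Fin n → ZZ := fun i => (w i, if i ∈ G then (z₀ i).2 else (zs i).2)
  refine ⟨j9_phi G k (f, z), ?_, (f, z), ?_, rfl⟩
  · refine hS1 _ fun i => ⟨fun s hs => ?_, fun j hj => ?_⟩
    · have h1 : (j9_phi G k (f, z) i).1 = w i := by
        unfold j9_phi
        by_cases hi : i ∈ G
        · simp only [if_pos hi, z]
        · simp only [if_neg hi, z]
      rw [h1]
      exact hw i s (Finset.mem_union_right _ hs)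
    · by_cases hi : i ∈ G
      · have h1 : (j9_phi G k (f, z) i).2 j = (w i).1 (Pool.Agent.H507_U.nd (k (f j))) := by
          unfold j9_phi
          simp only [if_pos hi, z]
          rfl
        rw [h1]
        exact (hx j (by omega)).2 i hi
      · have h1 : (j9_phi G k (f, z) i).2 j = (zs i).2 j := by
          unfold j9_phi
          simp only [if_neg hi, z]
        exact h1
  · refine hAB ⟨hma f fun j hj => hf j (lt_of_lt_of_le hj (le_max_left _ _)), hSb z fun i => ⟨?_, ?_⟩⟩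
    · intro s hs
      have hsS : s ∈ S := Finset.mem_union_left _ hs
      have h1 : (z i).1.1 s = (zs i).1.1 s := hw i s (Finset.mem_union_left _ hsS)
      rw [h1]
      exact (hzs i).1 s hsS
    · intro j hj
      have hj' : j < m := lt_of_lt_of_le hj (le_max_right _ _)
      by_cases hi : i ∈ G
      · simp only [z, if_pos hi]
      · have h1 : (z i).2 j = (zs i).2 j := by simp only [z, if_neg hi]
        have h2 := (hzs i).2 j hj'
        rw [h1, h2]
        simp only [c, if_neg hi]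

theorem mg_H {n : ℕ} (N : Set ((Fin n → ℕ → Bool) × (ℕ → ℕ))) (hN : MeasurableSet N)
    (s : Fin n → Fin 3) (G : Finset (Fin n)) (hG : ∀ i ∈ G, s i = 2) (k : ℕ → ℕ) (hk : Star k)
    (p : PN n) (h : MG N s p) :
    IsMeagre {f : ℕ → ℕ | ¬ MG N (fun i => if i ∈ G then 1 else s i)
      ((fun i => if i ∈ G then ((p.1 i).1, fun m => k (f m)) else p.1 i), p.2)} := by
  classical
  have h1 : IsMeagre (j9_phi G k ⁻¹' {z : Fin n → ZZ | (ev s p.1 z, p.2) ∈ N}) :=
    Pool.Agent.H507_U.meagre_preimage _ (j9_cont G k) (j9_dense G k hk) _ h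
  have h2 := Pool.Agent.H507_U.ku_fwd h1
  refine h2.mono ?_
  intro f hf
  intro hm
  apply hf
  unfold MG
  have h3 : ∀ z : Fin n → ZZ, ev (fun i => if i ∈ G then 1 else s i)
      (fun i => if i ∈ G then ((p.1 i).1, fun m => k (f m)) else p.1 i) z =
      ev s p.1 (j9_phi G k (f, z)) := by
    intro z
    funext i
    unfold ev j9_phi
    by_cases hi : i ∈ G
    · simp only [if_pos hi, hG i hi]
      rfl
    · simp only [if_neg hi]
  have h4 : {z : Fin n → ZZ | (ev (fun i => if i ∈ G then 1 else s i)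
      (fun i => if i ∈ G then ((p.1 i).1, fun m => k (f m)) else p.1 i) z, p.2) ∈ N} =
      {z : Fin n → ZZ | (f, z) ∈ j9_phi G k ⁻¹' {z : Fin n → ZZ | (ev s p.1 z, p.2) ∈ N}} := by
    ext z
    show (_, p.2) ∈ N ↔ (ev s p.1 (j9_phi G k (f, z)), p.2) ∈ N
    rw [h3]
  show IsMeagre {z : Fin n → ZZ | (ev (fun i => if i ∈ G then 1 else s i)
      (fun i => if i ∈ G then ((p.1 i).1, fun m => k (f m)) else p.1 i) z, p.2) ∈ N}
  rw [h4]
  exact hm

end Pool.Agent.H679UL
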