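import Mathlib
import Pool.Agent.H679UL.PosDefs
import Pool.Agent.H507_U.Cat
import Pool.Agent.H507_U.Pts

set_option autoImplicit false

namespace Pool.Agent.H679UL

open Set MeasurableSpace
open scoped MeasureTheory
open Pool.Agent.H507_U (W pt g0 Star Sq)

universe u

/- trivial: the two sets are equal -/
theorem mg_congr {n : ℕ} (N : Set ((Fin n → ℕ → Bool) × (ℕ → ℕ))) (s s' : Fin n → Fin 3)
    (p q : PN n) (hs : s = s')
    (h : ∀ i, (s i = 0 → (p.1 i).1 = (q.1 i).1) ∧ (s i = 1 → (p.1 i).2 = (q.1 i).2))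
    (h2 : p.2 = q.2) (hp : MG N s p) : MG N s' q := by
  subst hs
  have h3 : ∀ z, ev s p.1 z = ev s q.1 z := by
    intro z
    funext i
    unfold ev
    by_cases h0 : s i = 0
    · simp only [h0, if_true, (h i).1 h0]
    · by_cases h1 : s i = 1
      · simp only [h1, if_true, (h i).2 h1]
        simp
      · simp only [h0, h1, if_false]
  unfold MG at hp ⊢
  have h4 : {z : Fin n → ZZ | (ev s q.1 z, q.2) ∈ N} = {z : Fin n → ZZ | (ev s p.1 z, p.2) ∈ N} := by
    ext z
    simp only [mem_ofPred_eq, h3 z, h2]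
  rw [h4]
  exact hp

theorem j8_cont {n : ℕ} (s : Fin n → Fin 3) :
    Continuous fun q : PN n × (Fin n → ZZ) => ((ev s q.1.1 q.2, q.1.2) : (Fin n → ℕ → Bool) × (ℕ → ℕ)) := by
  refine Continuous.prodMk ?_ (continuous_snd.comp continuous_fst)
  refine continuous_pi fun i => ?_
  unfold ev
  by_cases h0 : s i = 0
  · simp only [h0, if_true]
    fun_prop
  · by_cases h1 : s i = 1
    · have h2 : Continuous fun q : PN n × (Fin n → ZZ) =>
          ((((q.1.1 i).2, (q.2 i).1)) : (ℕ → ℕ) × W) := by
        fun_prop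
      have h3 := Pool.Agent.H507_U.continuous_pt.comp h2
      have h4 : (fun a : PN n × (Fin n → ZZ) => if s i = 0 then (a.1.1 i).1 else
          if s i = 1 then pt (a.1.1 i).2 (a.2 i).1 else (a.2 i).2) =
          fun a => pt (a.1.1 i).2 (a.2 i).1 := by
        funext a
        rw [if_neg h0, if_pos h1]
      rw [h4]
      exact h3
    · simp only [h0, h1, if_false]
      fun_prop

/- Plain proof: (p, z) ↦ (ev s p.1 z, p.2) is continuous (Pool.Agent.H507_U.continuous_pt), so the preimage of N is Borel, and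
`Pool.Agent.H507_U.meas_meagre` applies with Y = Fin n → ZZ (instances: second countable, Baire (zz_baire), Borel). -/
theorem mg_meas {n : ℕ} (N : Set ((Fin n → ℕ → Bool) × (ℕ → ℕ))) (hN : MeasurableSet N)
    (s : Fin n → Fin 3) : MeasurableSet {p : PN n | MG N s p} := by
  have i1 : SecondCountableTopology (ℕ → Bool) := inferInstance
  have i2 : BorelSpace (ℕ → Bool) := inferInstance
  have i3 : SecondCountableTopology (ℕ → ℕ) := inferInstance
  have i4 : BorelSpace (ℕ → ℕ) := inferInstance
  have i5 : BorelSpace ZZ := Prod.borelSpace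
  have i6 : SecondCountableTopology ZZ := inferInstance
  have i7 : BorelSpace (Fin n → ZZ) := Pi.borelSpace
  have i8 : BorelSpace ((ℕ → Bool) × (ℕ → ℕ)) := Prod.borelSpace
  have i9 : SecondCountableTopology ((ℕ → Bool) × (ℕ → ℕ)) := inferInstance
  have i10 : BorelSpace (Fin n → (ℕ → Bool) × (ℕ → ℕ)) := Pi.borelSpace
  have i11 : SecondCountableTopology (Fin n → (ℕ → Bool) × (ℕ → ℕ)) := inferInstance
  have i12 : BorelSpace (PN n) := Prod.borelSpace
  have i13 : SecondCountableTopology (Fin n → ZZ) := inferInstance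
  have i14 : BorelSpace (PN n × (Fin n → ZZ)) := Prod.borelSpace
  have i15 : BorelSpace (Fin n → ℕ → Bool) := Pi.borelSpace
  have i16 : BorelSpace ((Fin n → ℕ → Bool) × (ℕ → ℕ)) := Prod.borelSpace
  have h1 : MeasurableSet ((fun q : PN n × (Fin n → ZZ) =>
      ((ev s q.1.1 q.2, q.1.2) : (Fin n → ℕ → Bool) × (ℕ → ℕ))) ⁻¹' N) :=
    (j8_cont s).measurable hN
  exact Pool.Agent.H507_U.meas_meagre h1

/- Plain proof: the map φ : W × (Fin n → ZZ) → (Fin n → ZZ), (w, z) ↦ Function.update z i (w, (z i).2) is continuous, open and onto, so the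
preimage of the meagre set {z | (ev s p.1 z, p.2) ∈ N} is meagre (IsMeagre.preimage_of_isOpenMap); then `Pool.Agent.H507_U.ku_fwd`; and
`ev s p.1 (φ (w, z)) = ev (update s i 0) (update p.1 i (pt (p.1 i).2 w, (p.1 i).2)) z` since s i = 1. -/
theorem mg_V {n : ℕ} (N : Set ((Fin n → ℕ → Bool) × (ℕ → ℕ))) (hN : MeasurableSet N)
    (s : Fin n → Fin 3) (i : Fin n) (hi : s i = 1) (p : PN n) (h : MG N s p) :
    IsMeagre {w : W | ¬ MG N (Function.update s i 0)
      (Function.update p.1 i (pt (p.1 i).2 w, (p.1 i).2), p.2)} := by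
  have _ := hN
  let φ : W × (Fin n → ZZ) → (Fin n → ZZ) := fun q => Function.update q.2 i (q.1, (q.2 i).2)
  have hc : Continuous φ := by
    refine Continuous.update continuous_snd i ?_
    exact continuous_fst.prodMk (continuous_snd.comp ((continuous_apply i).comp continuous_snd))
  have ho : IsOpenMap φ := by
    refine IsOpenMap.of_sections fun x => ?_
    refine ⟨fun y => ((y i).1, Function.update y i ((x.2 i).1, (y i).2)), ?_, ?_, ?_⟩
    · refine Continuous.continuousAt ?_
      refine Continuous.prodMk (by fun_prop) ?_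
      exact Continuous.update continuous_id i (by fun_prop)
    · apply Prod.ext
      · simp [φ]
      · simp [φ]
    · intro y
      simp [φ]
  have h0 : IsMeagre {z : Fin n → ZZ | (ev s p.1 z, p.2) ∈ N} := h
  have h1 : IsMeagre (φ ⁻¹' {z : Fin n → ZZ | (ev s p.1 z, p.2) ∈ N}) :=
    h0.preimage_of_isOpenMap hc ho
  have h2 := Pool.Agent.H507_U.ku_fwd h1
  refine h2.mono ?_
  intro w hw
  simp only [mem_ofPred_eq] at hw ⊢
  intro h3
  apply hw
  unfold MG
  have h4 : {z : Fin n → ZZ | (ev (Function.update s i 0)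
      (Function.update p.1 i (pt (p.1 i).2 w, (p.1 i).2)) z, p.2) ∈ N} =
      {y | (w, y) ∈ φ ⁻¹' {z : Fin n → ZZ | (ev s p.1 z, p.2) ∈ N}} := by
    ext z
    simp only [mem_ofPred_eq, mem_preimage, φ]
    have h5 : ev (Function.update s i 0) (Function.update p.1 i (pt (p.1 i).2 w, (p.1 i).2)) z =
        ev s p.1 (Function.update z i (w, (z i).2)) := by
      funext j
      unfold ev
      by_cases hj : j = i
      · subst hj
        simp [hi]
      · simp [Function.update_of_ne hj]
    rw [h5]
  rw [h4]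
  exact h3

end Pool.Agent.H679UL
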