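import Mathlib
import Pool.Agent.H679UL.TransV
import Pool.Agent.H679UL.TransH
import Pool.Agent.H679UL.PosDefs
import Pool.Agent.H507_U.Cat
import Pool.Agent.H507_U.Pts
import Pool.Agent.H507_U.PL1

/-!
Finitely many points of a generic sequence avoid the Borel sets which are meagre relative to the
known types.
-/

set_option autoImplicit false

namespace Pool.Agent.H679UL

open Set MeasurableSpace
open scoped MeasureTheory
open Pool.Agent.H507_U (W pt g0 Star Sq)

/-- the bad set for a labelling -/
def BV {n : ℕ} (N : Set ((Fin n → ℕ → Bool) × (ℕ → ℕ))) (s : Fin n → Fin 3) (i : Fin n) :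
    Set (PN n × W) :=
  {q | ¬ MG N (Function.update s i 0)
      (Function.update q.1.1 i (pt (q.1.1 i).2 q.2, (q.1.1 i).2), q.1.2)}

/-- the bad set for a function -/
def BH {n : ℕ} (N : Set ((Fin n → ℕ → Bool) × (ℕ → ℕ))) (s : Fin n → Fin 3) (G : Finset (Fin n)) :
    Set ((PN n × (ℕ → ℕ)) × (ℕ → ℕ)) :=
  {q | ¬ MG N (fun i => if i ∈ G then 1 else s i)
      ((fun i => if i ∈ G then ((q.1.1.1 i).1, fun m => q.1.2 (q.2 m)) else q.1.1.1 i), q.1.1.2)}

theorem bv_meas {n : ℕ} (N : Set ((Fin n → ℕ → Bool) × (ℕ → ℕ))) (hN : MeasurableSet N)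
    (s : Fin n → Fin 3) (i : Fin n) : MeasurableSet (BV N s i) := by
  have hm : Measurable fun q : PN n × W =>
      ((Function.update q.1.1 i (pt (q.1.1 i).2 q.2, (q.1.1 i).2), q.1.2) : PN n) := by
    refine Measurable.prodMk ?_ (measurable_snd.comp measurable_fst)
    rw [measurable_pi_iff]
    intro j
    by_cases hj : j = i
    · subst hj
      have h1 : (fun q : PN n × W =>
          (Function.update q.1.1 j (pt (q.1.1 j).2 q.2, (q.1.1 j).2)) j) =
          fun q : PN n × W => (pt (q.1.1 j).2 q.2, (q.1.1 j).2) := by
        funext q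
        exact Function.update_self _ _ _
      rw [h1]
      have h2 : Measurable fun q : PN n × W => (q.1.1 j).2 :=
        measurable_snd.comp ((measurable_pi_apply j).comp (measurable_fst.comp measurable_fst))
      exact (Pool.Agent.H507_U.l1_pt h2 measurable_snd).prodMk h2
    · have h1 : (fun q : PN n × W =>
          (Function.update q.1.1 i (pt (q.1.1 i).2 q.2, (q.1.1 i).2)) j) =
          fun q : PN n × W => q.1.1 j := by
        funext q
        exact Function.update_of_ne hj _ _
      rw [h1]
      exact (measurable_pi_apply j).comp (measurable_fst.comp measurable_fst)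
  exact hm (mg_meas N hN (Function.update s i 0)).compl

theorem bh_meas {n : ℕ} (N : Set ((Fin n → ℕ → Bool) × (ℕ → ℕ))) (hN : MeasurableSet N)
    (s : Fin n → Fin 3) (G : Finset (Fin n)) : MeasurableSet (BH N s G) := by
  have hm : Measurable fun q : (PN n × (ℕ → ℕ)) × (ℕ → ℕ) =>
      (((fun i => if i ∈ G then ((q.1.1.1 i).1, fun m => q.1.2 (q.2 m)) else q.1.1.1 i),
        q.1.1.2) : PN n) := by
    refine Measurable.prodMk ?_ (measurable_snd.comp (measurable_fst.comp measurable_fst))
    rw [measurable_pi_iff]
    intro j
    have h3 : Measurable fun q : (PN n × (ℕ → ℕ)) × (ℕ → ℕ) => q.1.1.1 j :=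
      (measurable_pi_apply j).comp (measurable_fst.comp (measurable_fst.comp measurable_fst))
    by_cases hj : j ∈ G
    · simp only [hj, if_true]
      exact (measurable_fst.comp h3).prodMk
        (Pool.Agent.H507_U.l1_comp (measurable_snd.comp measurable_fst) measurable_snd)
    · simp only [hj, if_false]
      exact h3
  exact hm (mg_meas N hN (fun i => if i ∈ G then 1 else s i)).compl

set_option maxHeartbeats 4000000 in
theorem claimB {K : Type} [LinearOrder K] [WellFoundedLT K] (σ : Sq K)
    (hK2 : ∀ a : K, ∃ b, a < b) (h1 : GenHN σ) (h2 : GenVN σ) (hk : ∀ β, Star (σ.k β)) {n : ℕ}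
    (N : Set ((Fin n → ℕ → Bool) × (ℕ → ℕ))) (hN : MeasurableSet N) :
    ∃ ξ : K, ∀ δ, ξ ≤ δ → ∀ (ν : Fin n → K) (γ : K), Function.Injective ν →
      (∀ i, δ < ν i) → γ ≤ δ →
      MG N (fun i => if σ.τ (ν i) ≤ δ then 1 else 2)
        ((fun i => (σ.x δ, if σ.τ (ν i) ≤ δ then σ.g (σ.τ (ν i)) else σ.g δ)), σ.g γ) →
      ((fun i => σ.x (ν i)), σ.g γ) ∉ N := by
  classical
  have hne : Nonempty K := ⟨σ.bot⟩
  choose ξV HV using fun q : (Fin n → Fin 3) × Fin n => h2 n (BV N q.1 q.2) (bv_meas N hN q.1 q.2)
  choose ξH HH using fun q : (Fin n → Fin 3) × Finset (Fin n) =>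
    h1 n (BH N q.1 q.2) (bh_meas N hN q.1 q.2)
  obtain ⟨M1, hM1⟩ := Finite.exists_le ξV
  obtain ⟨M2, hM2⟩ := Finite.exists_le ξH
  refine ⟨max M1 M2, fun δ hδ ν γ hinj hν hγ hMG => ?_⟩
  have hδ1 : M1 ≤ δ := (le_max_left _ _).trans hδ
  have hδ2 : M2 ≤ δ := (le_max_right _ _).trans hδ
  have hτν : ∀ i, σ.τ (ν i) ≤ ν i := fun i => σ.τ_le _
  -- the parameters and the status at time `l`
  let mu : K → Fin n → K := fun l i => if ν i < l then ν i else δ
  let be : K → Fin n → K := fun l i => if σ.τ (ν i) < l then σ.τ (ν i) else δ
  let P : K → PN n := fun l => ((fun i => (σ.x (mu l i), σ.g (be l i))), σ.g γ)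
  let st : K → Fin n → Fin 3 := fun l i => if ν i < l then 0 else if σ.τ (ν i) < l then 1 else 2
  have main : ∀ l : K, δ < l → MG N (st l) (P l) := by
    intro l
    induction l using (wellFounded_lt (α := K)).induction with
    | _ l IH =>
    intro hl
    let Rel : Finset K :=
      ((Finset.univ.image ν) ∪ (Finset.univ.image (fun i => σ.τ (ν i)))).filter
        (fun a => δ < a ∧ a < l)
    have hRν : ∀ i, ν i < l → ν i ∈ Rel := fun i hi =>
      Finset.mem_filter.mpr ⟨Finset.mem_union_left _ (Finset.mem_image.mpr ⟨i, Finset.mem_univ _, rfl⟩),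
        hν i, hi⟩
    have hRτ : ∀ i, δ < σ.τ (ν i) → σ.τ (ν i) < l → σ.τ (ν i) ∈ Rel := fun i hi hi' =>
      Finset.mem_filter.mpr ⟨Finset.mem_union_right _
        (Finset.mem_image.mpr ⟨i, Finset.mem_univ _, rfl⟩), hi, hi'⟩
    rcases Rel.eq_empty_or_nonempty with hemp | hnon
    · have e1 : ∀ i, ¬ ν i < l := by
        intro i hi
        have := hRν i hi
        rw [hemp] at this
        exact absurd this (Finset.notMem_empty _)
      have e2 : ∀ i, σ.τ (ν i) < l ↔ σ.τ (ν i) ≤ δ := by
        intro i
        constructor
        · intro hi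
          by_contra hcon
          have := hRτ i (not_le.1 hcon) hi
          rw [hemp] at this
          exact absurd this (Finset.notMem_empty _)
        · intro hi
          exact hi.trans_lt hl
      refine mg_congr N _ _ _ _ ?_ ?_ ?_ hMG
      · funext i
        simp only [st]
        rw [if_neg (e1 i)]
        simp only [e2 i]
      · intro i
        constructor
        · intro h0
          by_cases h3 : σ.τ (ν i) ≤ δ
          · simp only [h3, if_true] at h0
            exact absurd h0 (by decide)
          · simp only [h3, if_false] at h0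
            exact absurd h0 (by decide)
        · intro h0
          by_cases h3 : σ.τ (ν i) ≤ δ
          · simp only [P, be]
            rw [if_pos h3, if_pos ((e2 i).2 h3)]
          · simp only [h3, if_false] at h0
            exact absurd h0 (by decide)
      · rfl
    · obtain ⟨l0, hl0, hmax⟩ : ∃ l0 ∈ Rel, ∀ a ∈ Rel, a ≤ l0 :=
        ⟨Rel.max' hnon, Rel.max'_mem hnon, fun a ha => Rel.le_max' a ha⟩
      obtain ⟨-, hδl0, hl0l⟩ := Finset.mem_filter.mp hl0
      have eν : ∀ i, ν i < l ↔ ν i ≤ l0 := fun i =>
        ⟨fun h => hmax _ (hRν i h), fun h => h.trans_lt hl0l⟩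
      have eτ : ∀ i, σ.τ (ν i) < l ↔ σ.τ (ν i) ≤ l0 := by
        intro i
        constructor
        · intro h
          by_cases h3 : δ < σ.τ (ν i)
          · exact hmax _ (hRτ i h3 h)
          · exact (not_lt.1 h3).trans hδl0.le
        · intro h
          exact h.trans_lt hl0l
      have I0 := IH l0 hl0l hδl0
      have hbot : σ.bot ≠ l0 := ((σ.bot_le δ).trans_lt hδl0).ne
      have hg0 : σ.g l0 = fun m => σ.k l0 (σ.h l0 m) := if_neg hbot.symm
      have hmu : ∀ i, mu l0 i < l0 := by
        intro i
        simp only [mu]
        split_ifs with h3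
        · exact h3
        · exact hδl0
      have hbe : ∀ i, be l0 i < l0 := by
        intro i
        simp only [be]
        split_ifs with h3
        · exact h3
        · exact hδl0
      -- step H
      let G : Finset (Fin n) := Finset.univ.filter (fun i => σ.τ (ν i) = l0)
      have hGm : ∀ i, i ∈ G ↔ σ.τ (ν i) = l0 := fun i => by simp [G]
      have hGs : ∀ i ∈ G, st l0 i = 2 := by
        intro i hi
        have h3 := (hGm i).1 hi
        simp only [st]
        rw [if_neg (by rw [← h3]; exact not_lt.2 (hτν i)), if_neg (by rw [h3]; exact lt_irrefl _)]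
      have sH := HH (st l0, G) l0 ((hM2 _).trans_lt (hδ2.trans_lt hδl0)) (mu l0) (be l0) γ hmu hbe
        (hγ.trans_lt hδl0) (mg_H N hN (st l0) G hGs (σ.k l0) (hk l0) (P l0) I0)
      have sH' : MG N (fun i => if i ∈ G then 1 else st l0 i)
          ((fun i => if i ∈ G then (((P l0).1 i).1, fun m => σ.k l0 (σ.h l0 m))
            else (P l0).1 i), σ.g γ) := by
        by_contra hcon
        exact sH hcon
      let be' : Fin n → K := fun i => if σ.τ (ν i) ≤ l0 then σ.τ (ν i) else δ
      let st' : Fin n → Fin 3 := fun i =>
        if ν i < l0 then 0 else if σ.τ (ν i) ≤ l0 then 1 else 2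
      let P' : PN n := ((fun i => (σ.x (mu l0 i), σ.g (be' i))), σ.g γ)
      have I1 : MG N st' P' := by
        refine mg_congr N _ _ _ _ ?_ ?_ ?_ sH'
        · funext i
          simp only [st', st]
          by_cases h3 : σ.τ (ν i) = l0
          · rw [if_pos ((hGm i).2 h3), if_neg (by rw [← h3]; exact not_lt.2 (hτν i)),
              if_pos h3.le]
          · rw [if_neg (fun h => h3 ((hGm i).1 h))]
            have h4 : σ.τ (ν i) < l0 ↔ σ.τ (ν i) ≤ l0 :=
              ⟨le_of_lt, fun h => lt_of_le_of_ne h h3⟩
            simp only [h4]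
        · intro i
          by_cases h3 : σ.τ (ν i) = l0
          · have h5 := (hGm i).2 h3
            simp only [h5, if_true]
            constructor
            · intro h0
              exact absurd h0 (by decide)
            · intro _
              simp only [P', be']
              rw [if_pos h3.le, h3, hg0]
          · have h5 : i ∉ G := fun h => h3 ((hGm i).1 h)
            simp only [h5, if_false]
            constructor
            · intro _
              rfl
            · intro h0
              simp only [P, P', be, be']
              have h4 : σ.τ (ν i) < l0 ↔ σ.τ (ν i) ≤ l0 :=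
                ⟨le_of_lt, fun h => lt_of_le_of_ne h h3⟩
              simp only [h4]
        · rfl
      have hbe' : ∀ i, be' i ≤ l0 := by
        intro i
        simp only [be']
        split_ifs with h3
        · exact h3
        · exact hδl0.le
      -- step V
      by_cases hex : ∃ i0, ν i0 = l0
      · obtain ⟨i0, hi0⟩ := hex
        have hst1 : st' i0 = 1 := by
          simp only [st']
          rw [if_neg (by rw [hi0]; exact lt_irrefl _), if_pos (by rw [← hi0]; exact hτν i0)]
        have sV := HV (st', i0) l0 ((hM1 _).trans_lt (hδ1.trans_lt hδl0)) (mu l0) be' γ hmu hbe'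
          (hγ.trans hδl0.le) (mg_V N hN st' i0 hst1 P' I1)
        have sV' : MG N (Function.update st' i0 0)
            (Function.update P'.1 i0 (pt (P'.1 i0).2 (σ.v l0), (P'.1 i0).2), σ.g γ) := by
          by_contra hcon
          exact sV hcon
        refine mg_congr N _ _ _ _ ?_ ?_ ?_ sV'
        · funext i
          by_cases hi : i = i0
          · subst hi
            rw [Function.update_self]
            simp only [st]
            rw [if_pos ((eν i).2 hi0.le)]
          · rw [Function.update_of_ne hi]
            have h3 : ν i ≠ l0 := fun h => hi (hinj (h.trans hi0.symm))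
            simp only [st', st]
            have h4 : ν i < l0 ↔ ν i < l := by
              rw [eν i]
              exact ⟨le_of_lt, fun h => lt_of_le_of_ne h h3⟩
            simp only [h4, eτ i]
        · intro i
          by_cases hi : i = i0
          · subst hi
            simp only [Function.update_self]
            constructor
            · intro _
              simp only [P, mu, P', be']
              rw [if_pos ((eν i).2 hi0.le), if_pos (by rw [← hi0]; exact hτν i)]
              rw [Sq.x, hi0]
            · intro h0
              exact absurd h0 (by decide)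
          · simp only [Function.update_of_ne hi]
            have h3 : ν i ≠ l0 := fun h => hi (hinj (h.trans hi0.symm))
            have h4 : ν i < l0 ↔ ν i < l := by
              rw [eν i]
              exact ⟨le_of_lt, fun h => lt_of_le_of_ne h h3⟩
            constructor
            · intro _
              simp only [P, P', mu, h4]
            · intro _
              simp only [P, P', be, be', eτ i]
        · rfl
      · refine mg_congr N _ _ _ _ ?_ ?_ ?_ I1
        · funext i
          have h3 : ν i ≠ l0 := fun h => hex ⟨i, h⟩
          have h4 : ν i < l0 ↔ ν i < l := by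
            rw [eν i]
            exact ⟨le_of_lt, fun h => lt_of_le_of_ne h h3⟩
          simp only [st', st, h4, eτ i]
        · intro i
          have h3 : ν i ≠ l0 := fun h => hex ⟨i, h⟩
          have h4 : ν i < l0 ↔ ν i < l := by
            rw [eν i]
            exact ⟨le_of_lt, fun h => lt_of_le_of_ne h h3⟩
          constructor
          · intro _
            simp only [P, P', mu, h4]
          · intro _
            simp only [P, P', be, be', eτ i]
        · rfl
  -- the end
  obtain ⟨M, hM⟩ := Finite.exists_le ν
  obtain ⟨l, hl⟩ := hK2 (max M δ)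
  have hlν : ∀ i, ν i < l := fun i => (hM i).trans_lt ((le_max_left _ _).trans_lt hl)
  have hend := main l ((le_max_right _ _).trans_lt hl)
  intro hmem
  have huniv : {z : Fin n → ZZ | (ev (st l) (P l).1 z, (P l).2) ∈ N} = univ := by
    ext z
    simp only [mem_univ, iff_true]
    have h3 : ev (st l) (P l).1 z = fun i => σ.x (ν i) := by
      funext i
      simp only [ev, st, P, mu, hlν i, if_true]
    show (ev (st l) (P l).1 z, (P l).2) ∈ N
    rw [h3]
    exact hmem
  have hm : IsMeagre {z : Fin n → ZZ | (ev (st l) (P l).1 z, (P l).2) ∈ N} := hend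
  rw [huniv] at hm
  exact not_isMeagre_of_isOpen isOpen_univ univ_nonempty hm

end Pool.Agent.H679UL
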