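import Mathlib
import Pool.Agent.H507_U.Defs

/-!
Borel classes and projective classes over a countable family of sets (MP_1c8600_lc).
-/

set_option autoImplicit false

namespace Pool.Agent.H679UL

open Set MeasurableSpace
open scoped MeasureTheory
open Pool.Agent.H507_U (Bo)

universe u

/-- `Cl A α S`: the set `S` is in the Borel class `C_α` over `A`: `C_0` consists of the sets `A n`
and their complements, `C_α` for `α > 0` of the countable unions of sets in the classes `C_β`,
`β < α`, and of the complements of such unions. -/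
inductive Cl {E : Type u} (A : ℕ → Set E) : Ordinal.{0} → Set E → Prop
  | mem (n : ℕ) : Cl A 0 (A n)
  | compl (n : ℕ) : Cl A 0 (A n)ᶜ
  | iUnion {α : Ordinal.{0}} (hα : 0 < α) (β : ℕ → Ordinal.{0}) (hβ : ∀ n, β n < α)
      (S : ℕ → Set E) (h : ∀ n, Cl A (β n) (S n)) : Cl A α (⋃ n, S n)
  | compl_iUnion {α : Ordinal.{0}} (hα : 0 < α) (β : ℕ → Ordinal.{0}) (hβ : ∀ n, β n < α)
      (S : ℕ → Set E) (h : ∀ n, Cl A (β n) (S n)) : Cl A α (⋃ n, S n)ᶜ

/-- the rectangles in `E^m` -/
def Rect {E : Type u} (A : ℕ → Set E) (m : ℕ) : Set (Set (Fin m → E)) :=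
  {R | ∃ n : Fin m → ℕ, R = {x | ∀ i, x i ∈ A (n i)}}

/-- the projection onto `E^m` of a subset of `E^(m+1)`, deleting the last coordinate -/
def proj {E : Type u} {m : ℕ} (S : Set (Fin (m + 1) → E)) : Set (Fin m → E) :=
  {x | ∃ y : E, (Fin.snoc x y : Fin (m + 1) → E) ∈ S}

/-- `Sg A k m` is the family `Σ^{(m)}_k` of subsets of `E^m`, for `k ≥ 1` (the value for `k = 0` is
not used): `Σ^{(m)}_1` consists of the projections of the sets in the σ-algebra generated by the
rectangles of `E^(m+1)`, and `Σ^{(m)}_{k+1}` of the projections of the sets whose complement is in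
`Σ^{(m+1)}_k`. -/
def Sg {E : Type u} (A : ℕ → Set E) : ℕ → (m : ℕ) → Set (Set (Fin m → E))
  | 0, _ => ∅
  | 1, m => {T | ∃ S, MeasurableSet[generateFrom (Rect A (m + 1))] S ∧ T = proj S}
  | (k + 2), m => {T | ∃ S, Sᶜ ∈ Sg A (k + 1) (m + 1) ∧ T = proj S}

/-- the subset of `E^1` which corresponds to the subset `S` of `E` -/
def one {E : Type u} (S : Set E) : Set (Fin 1 → E) := {x | x 0 ∈ S}

/-- `S` is of projective class `k` -/
def OfClass {E : Type u} (A : ℕ → Set E) (k : ℕ) (S : Set E) : Prop := one S ∈ Sg A k 1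

/-- `S` is projective over `A` -/
def Projective {E : Type u} (A : ℕ → Set E) (S : Set E) : Prop :=
  ∃ k, 1 ≤ k ∧ (one S ∈ Sg A k 1 ∨ (one S)ᶜ ∈ Sg A k 1)

/-- Condition (a): for every countable ordinal `α` some Borel set over `A` is not in `C_α`. -/
def CondA {E : Type u} (A : ℕ → Set E) : Prop :=
  ∀ α : Ordinal.{0}, α < Ordinal.omega 1 → ∃ S ∈ Bo A, ¬ Cl A α S

/-- Condition (b)_k: every projective set over `A` is of projective class `k`. -/
def CondB {E : Type u} (A : ℕ → Set E) (k : ℕ) : Prop :=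
  ∀ S : Set E, Projective A S → OfClass A k S

/-- The statement of the problem for the set `E`. -/
def Q1 (E : Type u) : Prop :=
  ∀ k : ℕ, 1 ≤ k → ∃ A : ℕ → Set E, CondA A ∧ CondB A k

end Pool.Agent.H679UL
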