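import Mathlib
import Pool.Agent.H679UL.Defs

set_option autoImplicit false

namespace Pool.Agent.H679UL

open Set MeasurableSpace
open scoped MeasureTheory
open Pool.Agent.H507_U (Bo Sig)

universe u

theorem j3_mono {E : Type u} {A : ℕ → Set E} {α β : Ordinal.{0}} {S : Set E} (h : Cl A β S) (hb : β < α) :
    Cl A α S := by
  have h1 := Cl.iUnion (A := A) (lt_of_le_of_lt zero_le hb) (fun _ => β) (fun _ => hb) (fun _ => S) (fun _ => h)
  rwa [iUnion_const] at h1

theorem j3_compl {E : Type u} {A : ℕ → Set E} {α : Ordinal.{0}} {S : Set E} (h : Cl A α S) :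
    Cl A α Sᶜ := by
  cases h with
  | mem n => exact Cl.compl n
  | compl n => rw [compl_compl]; exact Cl.mem n
  | iUnion hα β hβ S h => exact Cl.compl_iUnion hα β hβ S h
  | compl_iUnion hα β hβ S h => rw [compl_compl]; exact Cl.iUnion hα β hβ S h

theorem j3_alg {E : Type u} (A : ℕ → Set E) {S : Set E}
    (h : S ∈ MeasureTheory.generateSetAlgebra (range A)) : ∃ n : ℕ, Cl A (n : Ordinal.{0}) S := by
  induction h with
  | base s hs =>
    obtain ⟨m, rfl⟩ := hs
    exact ⟨0, by rw [Nat.cast_zero]; exact Cl.mem m⟩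
  | empty =>
    refine ⟨1, ?_⟩
    have h1 := Cl.compl_iUnion (A := A) (α := ((1 : ℕ) : Ordinal.{0})) (by rw [Nat.cast_one]; exact zero_lt_one)
      (fun _ => 0) (fun _ => by rw [Nat.cast_one]; exact zero_lt_one)
      (fun n => if n = 0 then A 0 else (A 0)ᶜ) (fun n => by
        split_ifs
        · exact Cl.mem 0
        · exact Cl.compl 0)
    have h2 : (⋃ n : ℕ, (if n = 0 then A 0 else (A 0)ᶜ))ᶜ = (∅ : Set E) := by
      rw [compl_empty_iff, eq_univ_iff_forall]
      intro x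
      rw [mem_iUnion]
      by_cases hx : x ∈ A 0
      · exact ⟨0, by simpa using hx⟩
      · exact ⟨1, by simpa using hx⟩
    rwa [h2] at h1
  | compl s _ ih =>
    obtain ⟨n, hn⟩ := ih
    exact ⟨n, j3_compl hn⟩
  | union s t _ _ ih1 ih2 =>
    obtain ⟨n, hn⟩ := ih1
    obtain ⟨m, hm⟩ := ih2
    refine ⟨max n m + 1, ?_⟩
    have e1 : ((n : ℕ) : Ordinal.{0}) < ((max n m + 1 : ℕ) : Ordinal.{0}) := by
      exact_mod_cast (by omega : n < max n m + 1)
    have e2 : ((m : ℕ) : Ordinal.{0}) < ((max n m + 1 : ℕ) : Ordinal.{0}) := by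
      exact_mod_cast (by omega : m < max n m + 1)
    have h1 := Cl.iUnion (A := A) (α := ((max n m + 1 : ℕ) : Ordinal.{0})) (lt_of_le_of_lt zero_le e1)
      (fun k => if k = 0 then ((n : ℕ) : Ordinal.{0}) else ((m : ℕ) : Ordinal.{0}))
      (fun k => by split_ifs; exacts [e1, e2])
      (fun k => if k = 0 then s else t) (fun k => by split_ifs; exacts [hn, hm])
    have h2 : (⋃ k : ℕ, (if k = 0 then s else t)) = s ∪ t := by
      ext x
      rw [mem_iUnion, mem_union]
      constructor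
      · rintro ⟨k, hk⟩
        split_ifs at hk
        · exact Or.inl hk
        · exact Or.inr hk
      · rintro (hx | hx)
        · exact ⟨0, by simpa using hx⟩
        · exact ⟨1, by simpa using hx⟩
    rwa [h2] at h1

/- Plain proof. α = 0: every `S` in generateSetAlgebra (range A) is in `Cl A n S` for some natural n. -/
theorem cl_of_sig {E : Type u} (A : ℕ → Set E) {α : Ordinal.{0}} {S : Set E} (h : Sig A α S) :
    Cl A (Ordinal.omega0 + α) S := by
  induction h with
  | zero h =>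
    obtain ⟨n, hn⟩ := j3_alg A h
    rw [add_zero]
    exact j3_mono hn (Ordinal.natCast_lt_omega0 n)
  | @pos α hα β hβ S _ ih =>
    refine Cl.iUnion (lt_of_lt_of_le hα le_add_self) (fun n => Ordinal.omega0 + β n) (fun n => ?_)
      (fun n => (S n)ᶜ) (fun n => j3_compl (ih n))
    exact (add_lt_add_iff_left _).2 (hβ n)

theorem j3_step {E : Type u} (A : ℕ → Set E) {α β : Ordinal.{0}} {S : Set E} (hb : β < α)
    (h : Sig A β S ∨ Sig A β Sᶜ) :
    ∃ (T : ℕ → Set E) (γ : ℕ → Ordinal.{0}), (∀ j, γ j < α) ∧ (∀ j, Sig A (γ j) (T j)) ∧ S = ⋃ j, (T j)ᶜ := by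
  rcases h with h | h
  · cases h with
    | zero h =>
      refine ⟨fun _ => Sᶜ, fun _ => 0, fun _ => hb, fun _ => Sig.zero ?_, ?_⟩
      · exact MeasureTheory.generateSetAlgebra.compl _ h
      · rw [iUnion_const, compl_compl]
    | pos hα γ hγ T hT => exact ⟨T, γ, fun j => (hγ j).trans hb, hT, rfl⟩
  · refine ⟨fun _ => Sᶜ, fun _ => β, fun _ => hb, fun _ => h, ?_⟩
    rw [iUnion_const, compl_compl]

theorem j3_union {E : Type u} (A : ℕ → Set E) {α : Ordinal.{0}} (hα : 0 < α) (β : ℕ → Ordinal.{0})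
    (hβ : ∀ n, β n < α) (S : ℕ → Set E) (h : ∀ n, Sig A (β n) (S n) ∨ Sig A (β n) (S n)ᶜ) :
    Sig A α (⋃ n, S n) := by
  choose T γ h1 h2 h3 using fun n => j3_step A (hβ n) (h n)
  have h4 := Sig.pos (A := A) hα (fun k => γ k.unpair.1 k.unpair.2) (fun k => h1 _ _)
    (fun k => T k.unpair.1 k.unpair.2) (fun k => h2 _ _)
  have h5 : (⋃ n, S n) = ⋃ k : ℕ, (T k.unpair.1 k.unpair.2)ᶜ := by
    rw [iUnion_unpair (fun i j => (T i j)ᶜ)]
    exact iUnion_congr h3
  rw [h5]
  exact h4

theorem j3_two {E : Type u} (A A' : ℕ → Set E) (hA : ∀ n, Sig A 0 (A' n)) {α : Ordinal.{0}}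
    {S : Set E} (h : Cl A' α S) : Sig A α S ∨ Sig A α Sᶜ := by
  induction h with
  | mem n => exact Or.inl (hA n)
  | compl n => exact Or.inr (by rw [compl_compl]; exact hA n)
  | iUnion hα β hβ S _ ih => exact Or.inl (j3_union A hα β hβ S ih)
  | compl_iUnion hα β hβ S _ ih => exact Or.inr (by rw [compl_compl]; exact j3_union A hα β hβ S ih)

/- Plain proof. First show `Cl A' α S → Sig A α S ∨ Sig A α Sᶜ` by induction. -/
theorem sig_of_cl {E : Type u} (A A' : ℕ → Set E) (hA : ∀ n, Sig A 0 (A' n)) {α : Ordinal.{0}}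
    {S : Set E} (h : Cl A' α S) : Sig A (α + 2) S := by
  have h2 : α < α + 2 := by
    have : (0 : Ordinal.{0}) < 2 := by norm_num
    calc α = α + 0 := (add_zero α).symm
      _ < α + 2 := (add_lt_add_iff_left _).2 this
  obtain ⟨T, γ, h3, h4, rfl⟩ := j3_step A h2 (j3_two A A' hA h)
  exact Sig.pos (lt_of_le_of_lt zero_le h2) γ h3 T h4

end Pool.Agent.H679UL
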