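import Mathlib
import Pool.Agent.H679UL.Defs

set_option autoImplicit false

namespace Pool.Agent.H679UL

open Set MeasurableSpace
open scoped MeasureTheory
open Pool.Agent.H507_U (Bo Sig)

universe u

/- Plain proof: `generateFrom_pi_eq` (Mathlib) with `IsCountablySpanning (range A)` from `hA`; the images
`pi univ '' pi univ C` are the rectangles. -/
theorem borel_pi {E : Type u} (A : ℕ → Set E) (hA : ⋃ n, A n = univ) (m : ℕ) :
    generateFrom (Rect A m) =
      @MeasurableSpace.pi (Fin m) (fun _ => E) (fun _ => generateFrom (range A)) := by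
  have hC : ∀ _i : Fin m, IsCountablySpanning (range A) := fun _ =>
    ⟨A, fun n => mem_range_self n, hA⟩
  have h := generateFrom_pi_eq (ι := Fin m) (α := fun _ => E) (C := fun _ => range A) hC
  rw [h]
  congr 1
  ext R
  constructor
  · rintro ⟨n, rfl⟩
    refine ⟨fun i => A (n i), ?_, ?_⟩
    · intro i _
      exact mem_range_self (n i)
    · ext x
      simp [Set.mem_pi]
  · rintro ⟨t, ht, rfl⟩
    have ht' : ∀ i, ∃ n, A n = t i := fun i => ht i (mem_univ i)
    choose n hn using ht'
    refine ⟨n, ?_⟩
    ext x
    simp [Set.mem_pi, hn]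

/- Plain proof: both are `⨆ i, comap (fun x => χ (x i)) inferInstance` (MeasurableSpace.comap_comp, comap_iSup). -/
theorem pi_comap {E : Type u} (χ : E → ℕ → Bool) (m : ℕ) :
    @MeasurableSpace.pi (Fin m) (fun _ => E) (fun _ => MeasurableSpace.comap χ inferInstance) =
      MeasurableSpace.comap (fun (x : Fin m → E) i => χ (x i)) inferInstance := by
  have hR : (inferInstance : MeasurableSpace (Fin m → ℕ → Bool)) =
      ⨆ i, MeasurableSpace.comap (fun b : Fin m → ℕ → Bool => b i) inferInstance := rfl
  rw [hR, MeasurableSpace.comap_iSup]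
  change (⨆ i, MeasurableSpace.comap (fun b : Fin m → E => b i)
    (MeasurableSpace.comap χ inferInstance)) = _
  congr 1
  funext i
  rw [MeasurableSpace.comap_comp, MeasurableSpace.comap_comp]
  rfl

end Pool.Agent.H679UL
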