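import Mathlib
import Pool.Agent.H679UL.Pi
import Pool.Agent.H679UL.Defs

set_option autoImplicit false

namespace Pool.Agent.H679UL

open Set MeasurableSpace
open scoped MeasureTheory
open Pool.Agent.H507_U (Bo Sig)

universe u

def PS {E : Type u} (A : ℕ → Set E) (m : ℕ) : Set (Set (Fin m → E)) :=
  {S | ∃ k, 1 ≤ k ∧ (S ∈ Sg A k m ∨ Sᶜ ∈ Sg A k m)}

theorem j4_meas {E : Type u} (A : ℕ → Set E) (hA : ⋃ n, A n = univ) {m m' : ℕ} (f : Fin m → Fin m')
    (S : Set (Fin m → E)) (hS : MeasurableSet[generateFrom (Rect A m)] S) :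
    MeasurableSet[generateFrom (Rect A m')] {x : Fin m' → E | (fun i => x (f i)) ∈ S} := by
  rw [borel_pi A hA] at hS ⊢
  letI : MeasurableSpace E := generateFrom (range A)
  have hm : Measurable (fun (x : Fin m' → E) (i : Fin m) => x (f i)) :=
    measurable_pi_lambda _ (fun i => measurable_pi_apply _)
  exact hm hS

theorem j4_snoc {E : Type u} {m m' : ℕ} (f : Fin m → Fin m') (x : Fin m' → E) (y : E) :
    (fun i : Fin (m + 1) => (Fin.snoc x y : Fin (m' + 1) → E)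
      ((Fin.snoc (fun i => (f i).castSucc) (Fin.last m') : Fin (m + 1) → Fin (m' + 1)) i)) =
      (Fin.snoc (fun i => x (f i)) y : Fin (m + 1) → E) := by
  funext i
  refine Fin.lastCases ?_ (fun j => ?_) i
  · simp
  · simp

theorem j4_projre {E : Type u} {m m' : ℕ} (f : Fin m → Fin m') (S : Set (Fin (m + 1) → E)) :
    {x : Fin m' → E | (fun i => x (f i)) ∈ proj S} =
      proj {z : Fin (m' + 1) → E | (fun i : Fin (m + 1) => z
        ((Fin.snoc (fun i => (f i).castSucc) (Fin.last m') : Fin (m + 1) → Fin (m' + 1)) i)) ∈ S} := by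
  ext x
  constructor
  · rintro ⟨y, hy⟩
    refine ⟨y, ?_⟩
    show (fun i : Fin (m + 1) => (Fin.snoc x y : Fin (m' + 1) → E)
      ((Fin.snoc (fun i => (f i).castSucc) (Fin.last m') : Fin (m + 1) → Fin (m' + 1)) i)) ∈ S
    rw [j4_snoc]
    exact hy
  · rintro ⟨y, hy⟩
    refine ⟨y, ?_⟩
    have hy' : (fun i : Fin (m + 1) => (Fin.snoc x y : Fin (m' + 1) → E)
      ((Fin.snoc (fun i => (f i).castSucc) (Fin.last m') : Fin (m + 1) → Fin (m' + 1)) i)) ∈ S := hy
    rw [j4_snoc] at hy'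
    exact hy'

theorem j4_projcast {E : Type u} [Nonempty E] {m : ℕ} (S : Set (Fin m → E)) :
    S = proj {z : Fin (m + 1) → E | (fun i : Fin m => z (Fin.castSucc i)) ∈ S} := by
  ext x
  constructor
  · intro hx
    obtain ⟨y⟩ := ‹Nonempty E›
    refine ⟨y, ?_⟩
    show (fun i : Fin m => (Fin.snoc x y : Fin (m + 1) → E) (Fin.castSucc i)) ∈ S
    have h1 : (fun i : Fin m => (Fin.snoc x y : Fin (m + 1) → E) (Fin.castSucc i)) = x := by
      funext i
      simp
    rw [h1]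
    exact hx
  · rintro ⟨y, hy⟩
    have hy' : (fun i : Fin m => (Fin.snoc x y : Fin (m + 1) → E) (Fin.castSucc i)) ∈ S := hy
    have h1 : (fun i : Fin m => (Fin.snoc x y : Fin (m + 1) → E) (Fin.castSucc i)) = x := by
      funext i
      simp
    rw [h1] at hy'
    exact hy'

theorem j4_re {E : Type u} (A : ℕ → Set E) (hA : ⋃ n, A n = univ) (k : ℕ) :
    ∀ (m m' : ℕ) (f : Fin m → Fin m') (S : Set (Fin m → E)), S ∈ Sg A k m →
      {x : Fin m' → E | (fun i => x (f i)) ∈ S} ∈ Sg A k m' := by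
  induction k with
  | zero =>
    intro m m' f S hS
    exact absurd hS (Set.notMem_empty _)
  | succ k ih =>
    cases k with
    | zero =>
      intro m m' f S hS
      obtain ⟨T, hT, rfl⟩ := hS
      refine ⟨_, j4_meas A hA _ T hT, j4_projre f T⟩
    | succ k =>
      intro m m' f S hS
      obtain ⟨T, hT, rfl⟩ := hS
      refine ⟨_, ?_, j4_projre f T⟩
      exact ih _ _ _ Tᶜ hT

theorem j4_comp {E : Type u} [Nonempty E] (A : ℕ → Set E) (hA : ⋃ n, A n = univ) (k m : ℕ) (hk : 1 ≤ k)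
    (S : Set (Fin m → E)) (hS : S ∈ Sg A k m) : Sᶜ ∈ Sg A (k + 1) m := by
  obtain ⟨l, rfl⟩ : ∃ l, k = l + 1 := ⟨k - 1, by omega⟩
  refine ⟨{z : Fin (m + 1) → E | (fun i : Fin m => z (Fin.castSucc i)) ∈ Sᶜ}, ?_, j4_projcast Sᶜ⟩
  have h1 : {z : Fin (m + 1) → E | (fun i : Fin m => z (Fin.castSucc i)) ∈ Sᶜ}ᶜ =
      {z : Fin (m + 1) → E | (fun i : Fin m => z (Fin.castSucc i)) ∈ S} := by
    ext z
    simp
  rw [h1]
  exact j4_re A hA (l + 1) m (m + 1) Fin.castSucc S hS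

/- Plain proof. By borel_pi all the σ-algebras are products of `mE = generateFrom (range A)`, so reindexing `x ↦ x ∘ f` is
measurable. (1) Reindexing closure of each class: `S ∈ Sg A k m → {x : Fin m' → E | x ∘ f ∈ S} ∈ Sg A k m'`, by induction on k for all m,
m', f: `S = proj S'`, and `{x | x ∘ f ∈ proj S'} = proj {z | z ∘ f⁺ ∈ S'}` where `f⁺ : Fin (m+1) → Fin (m'+1)` is `f` on castSucc and
last ↦ last. (2) ps_borel by induction on k: `S = proj {z | z ∘ castSucc ∈ S}` (3) `S ∈ Sg A k m → Sᶜ ∈ Sg A (k+1) m`: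
`Sᶜ = proj {z | z ∘ castSucc ∈ S}ᶜ`, by (1). (4) ps_proj: for `Sᶜ ∈ Sg A k (m+1)` directly `proj S ∈ Sg A (k+1) m`; for `S ∈ Sg A k (m+1)` first
(3). (5) ps_reindex from (1). -/
theorem ps_borel {E : Type u} [Nonempty E] (A : ℕ → Set E) (hA : ⋃ n, A n = univ) (m : ℕ)
    (S : Set (Fin m → E)) (hS : MeasurableSet[generateFrom (Rect A m)] S) (k : ℕ) (hk : 1 ≤ k) :
    S ∈ Sg A k m := by
  obtain ⟨l, rfl⟩ : ∃ l, k = l + 1 := ⟨k - 1, by omega⟩
  clear hk
  induction l generalizing m S with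
  | zero =>
    exact ⟨_, j4_meas A hA Fin.castSucc S hS, j4_projcast S⟩
  | succ l ih =>
    refine ⟨{z : Fin (m + 1) → E | (fun i : Fin m => z (Fin.castSucc i)) ∈ S}, ?_, j4_projcast S⟩
    exact ih (m + 1) _ (j4_meas A hA Fin.castSucc S hS).compl

theorem ps_compl {E : Type u} [Nonempty E] (A : ℕ → Set E) (m : ℕ) (S : Set (Fin m → E)) (hS : S ∈ PS A m) :
    Sᶜ ∈ PS A m := by
  obtain ⟨k, hk, h⟩ := hS
  refine ⟨k, hk, ?_⟩
  rcases h with h | h
  · right
    rwa [compl_compl]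
  · left
    exact h

theorem ps_proj {E : Type u} [Nonempty E] (A : ℕ → Set E) (hA : ⋃ n, A n = univ) (m : ℕ)
    (S : Set (Fin (m + 1) → E)) (hS : S ∈ PS A (m + 1)) : proj S ∈ PS A m := by
  obtain ⟨k, hk, h⟩ := hS
  rcases h with h | h
  · refine ⟨k + 2, by omega, Or.inl ?_⟩
    exact ⟨S, j4_comp A hA k (m + 1) hk S h, rfl⟩
  · obtain ⟨l, rfl⟩ : ∃ l, k = l + 1 := ⟨k - 1, by omega⟩
    exact ⟨l + 2, by omega, Or.inl ⟨S, h, rfl⟩⟩

theorem ps_reindex {E : Type u} [Nonempty E] (A : ℕ → Set E) (hA : ⋃ n, A n = univ) (m m' : ℕ)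
    (f : Fin m → Fin m') (S : Set (Fin m → E)) (hS : S ∈ PS A m) :
    {x : Fin m' → E | (fun i => x (f i)) ∈ S} ∈ PS A m' := by
  obtain ⟨k, hk, h⟩ := hS
  refine ⟨k, hk, ?_⟩
  rcases h with h | h
  · left
    exact j4_re A hA k m m' f S h
  · right
    exact j4_re A hA k m m' f Sᶜ h

end Pool.Agent.H679UL

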