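import Mathlib
import Pool.Agent.H679UL.Defs

set_option autoImplicit false

namespace Pool.Agent.H679UL

open Set MeasurableSpace
open scoped MeasureTheory
open Pool.Agent.H507_U (Bo Sig)

universe u

/-- tuples of covered points -/
def j2_O {E : Type u} (A : ℕ → Set E) (m : ℕ) : Set (Fin m → E) := {x | ∀ i, x i ∈ ⋃ n, A n}

theorem j2_i {E : Type u} (A : ℕ → Set E) (m : ℕ) (S : Set (Fin m → E))
    (hS : MeasurableSet[generateFrom (Rect A m)] S) : S ⊆ j2_O A m ∨ (j2_O A m)ᶜ ⊆ S := by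
  induction S, hS using MeasurableSpace.generateFrom_induction with
  | hC t ht _ =>
    obtain ⟨n, rfl⟩ := ht
    left
    intro x hx i
    exact mem_iUnion.mpr ⟨n i, hx i⟩
  | empty => exact Or.inl (empty_subset _)
  | compl t _ ih =>
    rcases ih with h | h
    · exact Or.inr (compl_subset_compl.mpr h)
    · left
      intro x hx
      by_contra hc
      exact hx (h hc)
  | iUnion s _ ih =>
    by_cases hall : ∀ n, s n ⊆ j2_O A m
    · exact Or.inl (iUnion_subset hall)
    · push Not at hall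
      obtain ⟨n, hn⟩ := hall
      exact Or.inr (((ih n).resolve_left hn).trans (subset_iUnion s n))

theorem j2_snoc {E : Type u} (A : ℕ → Set E) (m : ℕ) (r : E) (hr : r ∉ ⋃ n, A n) (x : Fin m → E) :
    (Fin.snoc x r : Fin (m + 1) → E) ∉ j2_O A (m + 1) := by
  intro h
  have h1 := h (Fin.last m)
  rw [Fin.snoc_last] at h1
  exact hr h1

theorem j2_ii1 {E : Type u} (A : ℕ → Set E) (r : E) (hr : r ∉ ⋃ n, A n) (m : ℕ)
    (T : Set (Fin m → E)) (hT : T ∈ Sg A 1 m) : T ⊆ j2_O A m ∨ T = univ := by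
  obtain ⟨S, hS, rfl⟩ := hT
  rcases j2_i A (m + 1) S hS with h | h
  · left
    rintro x ⟨y, hy⟩ i
    have h1 := h hy (Fin.castSucc i)
    rw [Fin.snoc_castSucc] at h1
    exact h1
  · right
    rw [eq_univ_iff_forall]
    intro x
    exact ⟨r, h (j2_snoc A m r hr x)⟩

theorem j2_ii2 {E : Type u} (A : ℕ → Set E) (r : E) (hr : r ∉ ⋃ n, A n) (k : ℕ) :
    ∀ (m : ℕ) (T : Set (Fin m → E)), T ∈ Sg A (k + 2) m → T = ∅ ∨ T = univ := by
  induction k with
  | zero =>
    intro m T hT
    obtain ⟨S, hS, rfl⟩ := hT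
    rcases j2_ii1 A r hr (m + 1) Sᶜ hS with h | h
    · right
      rw [eq_univ_iff_forall]
      intro x
      refine ⟨r, ?_⟩
      by_contra hc
      exact j2_snoc A m r hr x (h hc)
    · left
      rw [compl_univ_iff] at h
      rw [h]
      ext x
      simp [proj]
  | succ k ih =>
    intro m T hT
    obtain ⟨S, hS, rfl⟩ := hT
    rcases ih (m + 1) Sᶜ hS with h | h
    · right
      rw [compl_empty_iff] at h
      rw [h, eq_univ_iff_forall]
      intro x
      exact ⟨r, trivial⟩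
    · left
      rw [compl_univ_iff] at h
      rw [h]
      ext x
      simp [proj]

theorem j2_iii {E : Type u} (A : ℕ → Set E) (hA : CondA A) : ∃ n, (A n).Nonempty := by
  by_contra hcon
  push Not at hcon
  obtain ⟨S, hS, hn⟩ := hA 1 (Ordinal.one_lt_omega0.trans_le (Ordinal.omega0_le_omega 1))
  have h1 : ∀ T, MeasurableSet[generateFrom (range A)] T → T = ∅ ∨ T = univ := by
    intro T hT
    induction T, hT using MeasurableSpace.generateFrom_induction with
    | hC t ht _ =>
      obtain ⟨n, rfl⟩ := ht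
      exact Or.inl (hcon n)
    | empty => exact Or.inl rfl
    | compl t _ ih =>
      rcases ih with h | h
      · exact Or.inr (by rw [h, compl_empty])
      · exact Or.inl (by rw [h, compl_univ])
    | iUnion s _ ih =>
      by_cases hall : ∀ n, s n = ∅
      · exact Or.inl (by simp [hall])
      · push Not at hall
        obtain ⟨n, hn⟩ := hall
        right
        rw [eq_univ_iff_forall]
        intro x
        have h2 : s n = univ := (ih n).resolve_left hn.ne_empty
        exact mem_iUnion.mpr ⟨n, h2 ▸ mem_univ x⟩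
  rcases h1 S hS with h | h
  · apply hn
    have h2 := Cl.iUnion (A := A) (zero_lt_one : (0 : Ordinal.{0}) < 1) (fun _ => 0)
      (fun _ => zero_lt_one) (fun _ => A 0) (fun _ => Cl.mem 0)
    simp only [hcon, iUnion_empty] at h2
    rw [h]
    exact h2
  · apply hn
    have h2 := Cl.iUnion (A := A) (zero_lt_one : (0 : Ordinal.{0}) < 1) (fun _ => 0)
      (fun _ => zero_lt_one) (fun _ => (A 0)ᶜ) (fun _ => Cl.compl 0)
    simp only [hcon, compl_empty, iUnion_const] at h2
    rw [h]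
    exact h2

theorem j2_iv {E : Type u} (A : ℕ → Set E) (n : ℕ) : one (A n) ∈ Sg A 1 1 := by
  refine ⟨{x : Fin 2 → E | ∀ i, x i ∈ A n}, measurableSet_generateFrom ⟨fun _ => n, rfl⟩, ?_⟩
  ext x
  constructor
  · intro hx
    refine ⟨x 0, ?_⟩
    intro i
    refine Fin.lastCases ?_ (fun j => ?_) i
    · rw [Fin.snoc_last]; exact hx
    · rw [Fin.snoc_castSucc]
      have : j = 0 := Subsingleton.elim _ _
      rw [this]; exact hx
  · rintro ⟨y, hy⟩
    have h1 := hy (Fin.castSucc 0)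
    rw [Fin.snoc_castSucc] at h1
    exact h1

/- Plain proof. Suppose `r ∉ ⋃ A n`; put `O m = {x : Fin m → E | ∀ i, x i ∈ ⋃ n, A n}`. (i) For every `S` in
`generateFrom (Rect A m)`, m ≥ 1: either `S ⊆ O m` or `(O m)ᶜ ⊆ S` (induction on generateFrom). (ii) So every `T` in
`Sg A 1 m` has `T ⊆ O m` or `T = univ` (if `(O (m+1))ᶜ ⊆ S` then `snoc x r ∈ S` for all x), and every `T` in `Sg A k m`, k ≥ 2,
is `∅` or `univ` (for k = 2: Sᶜ ∈ Sg A 1 (m+1): either Sᶜ ⊆ O, so snoc x r ∈ S for all x, T = univ, or Sᶜ = univ, T = ∅;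
k ≥ 3 by induction, `proj ∅ = ∅`, `proj univ = univ` using r). (iii) Some `A n` is nonempty: else every set in `Bo A` is `∅` or
`univ`, and both are in `Cl A α` for all α ≥ 1 (⋃ of A 0, (A 0)ᶜ, ...), contradicting hA at α = 1. (iv) `one (A n) ∈ Sg A 1 1`: it is the
projection of `{x : Fin 2 → E | x 0 ∈ A n ∧ x 1 ∈ A n}`; so `A n` and `(A n)ᶜ` are `Projective`. For k ≥ 2 `OfClass A k (A n)` gives
`one (A n)` = ∅ or univ, but A n is nonempty and misses r. For k = 1 `OfClass A 1 (A n)ᶜ` gives `one (A n)ᶜ ⊆ O 1` or `= univ`, but it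
contains `fun _ => r` and misses a point of A n. -/
theorem covered {E : Type u} (A : ℕ → Set E) (hA : CondA A) (k : ℕ) (hk : 1 ≤ k)
    (hB : CondB A k) : ⋃ n, A n = univ := by
  by_contra hne
  obtain ⟨r, hr⟩ := (ne_univ_iff_exists_notMem _).mp hne
  obtain ⟨n, a, ha⟩ := j2_iii A hA
  have hrn : r ∉ A n := fun h => hr (mem_iUnion.mpr ⟨n, h⟩)
  have hiv := j2_iv A n
  obtain ⟨k, rfl⟩ : ∃ j, k = j + 1 := ⟨k - 1, by omega⟩
  rcases k with _ | k
  · have h1 : OfClass A 1 (A n)ᶜ := hB _ ⟨1, le_rfl, Or.inr (by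
      have h2 : (one (A n)ᶜ)ᶜ = one (A n) := by
        ext x
        simp [one]
      rw [h2]
      exact hiv)⟩
    rcases j2_ii1 A r hr 1 _ h1 with h | h
    · have h2 : (fun _ => r : Fin 1 → E) ∈ j2_O A 1 := h hrn
      exact hr (h2 0)
    · have h2 : (fun _ => a : Fin 1 → E) ∈ one (A n)ᶜ := h ▸ mem_univ _
      exact h2 ha
  · have h1 : OfClass A (k + 2) (A n) := hB _ ⟨1, le_rfl, Or.inl hiv⟩
    rcases j2_ii2 A r hr k 1 _ h1 with h | h
    · have h2 : (fun _ => a : Fin 1 → E) ∈ one (A n) := ha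
      rw [h] at h2
      exact h2
    · have h2 : (fun _ => r : Fin 1 → E) ∈ one (A n) := h ▸ mem_univ _
      exact hrn h2

end Pool.Agent.H679UL
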