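import Mathlib
import Pool.Agent.H679UL.Pi
import Pool.Agent.H679UL.Closure
import Pool.Agent.H679UL.Defs

set_option autoImplicit false

namespace Pool.Agent.H679UL

open Set MeasurableSpace
open scoped MeasureTheory
open Pool.Agent.H507_U (Bo Sig)

universe u

theorem j6_form {E : Type u} (A : ℕ → Set E) (hA : ⋃ n, A n = univ)
    (χ : E → ℕ → Bool) (hχ : MeasurableSpace.comap χ inferInstance = generateFrom (range A)) (m : ℕ) :
    generateFrom (Rect A m) =
      MeasurableSpace.comap (fun (x : Fin m → E) i => χ (x i)) inferInstance := by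
  rw [borel_pi A hA, ← pi_comap, hχ]

theorem j6_proj {E : Type u} (A : ℕ → Set E) (hA : ⋃ n, A n = univ)
    (χ : E → ℕ → Bool) (hχ : MeasurableSpace.comap χ inferInstance = generateFrom (range A))
    (hb : ∀ (n : ℕ) (R : Set ((Fin n → ℕ → Bool) × (ℕ → Bool))), MeasurableSet R →
      ∃ D : Set (Fin n → ℕ → Bool), MeasurableSet D ∧
        ∀ s : Fin n → E, (∃ t, ((fun i => χ (s i)), χ t) ∈ R) ↔ (fun i => χ (s i)) ∈ D)
    (m : ℕ) (S : Set (Fin (m + 1) → E)) (hS : MeasurableSet[generateFrom (Rect A (m + 1))] S) :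
    MeasurableSet[generateFrom (Rect A m)] (proj S) := by
  rw [j6_form A hA χ hχ] at hS ⊢
  obtain ⟨D', hD', rfl⟩ := hS
  have h1 : Continuous fun q : (Fin m → ℕ → Bool) × (ℕ → Bool) =>
      (Fin.snoc q.1 q.2 : Fin (m + 1) → ℕ → Bool) := by
    refine continuous_pi fun i => ?_
    refine Fin.lastCases ?_ (fun j => ?_) i
    · simp only [Fin.snoc_last]
      exact continuous_snd
    · simp only [Fin.snoc_castSucc]
      exact (continuous_apply j).comp continuous_fst
  obtain ⟨D, hD, h2⟩ := hb m ((fun q : (Fin m → ℕ → Bool) × (ℕ → Bool) =>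
      (Fin.snoc q.1 q.2 : Fin (m + 1) → ℕ → Bool)) ⁻¹' D') (h1.measurable hD')
  refine ⟨D, hD, ?_⟩
  ext x
  rw [mem_preimage, ← h2 x]
  constructor
  · rintro ⟨t, ht⟩
    refine ⟨t, ?_⟩
    rw [mem_preimage] at ht ⊢
    convert ht using 1
    funext i
    refine Fin.lastCases ?_ (fun j => ?_) i
    · simp
    · simp
  · rintro ⟨t, ht⟩
    refine ⟨t, ?_⟩
    rw [mem_preimage] at ht ⊢
    convert ht using 1
    funext i
    refine Fin.lastCases ?_ (fun j => ?_) i
    · simp
    · simp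

theorem j6_Sg {E : Type u} (A : ℕ → Set E) (hA : ⋃ n, A n = univ)
    (χ : E → ℕ → Bool) (hχ : MeasurableSpace.comap χ inferInstance = generateFrom (range A))
    (hb : ∀ (n : ℕ) (R : Set ((Fin n → ℕ → Bool) × (ℕ → Bool))), MeasurableSet R →
      ∃ D : Set (Fin n → ℕ → Bool), MeasurableSet D ∧
        ∀ s : Fin n → E, (∃ t, ((fun i => χ (s i)), χ t) ∈ R) ↔ (fun i => χ (s i)) ∈ D)
    (k : ℕ) : ∀ (m : ℕ) (S : Set (Fin m → E)), S ∈ Sg A k m →
      MeasurableSet[generateFrom (Rect A m)] S := by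
  induction k with
  | zero =>
    intro m S hS
    exact absurd hS (by simp [Sg])
  | succ k ih =>
    intro m S hS
    cases k with
    | zero =>
      obtain ⟨S', hS', rfl⟩ := hS
      exact j6_proj A hA χ hχ hb m S' hS'
    | succ k =>
      obtain ⟨S', hS', rfl⟩ := hS
      have h1 := ih (m + 1) _ hS'
      exact j6_proj A hA χ hχ hb m S' (MeasurableSet.compl_iff.mp h1)

/- TARGET. Plain proof: by induction on k, every `S ∈ Sg A k m` is measurable for `generateFrom (Rect A m)`, i.e. of the form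
`{x | (fun i => χ (x i)) ∈ D}` with D Borel (borel_pi, hχ, pi_comap): `S = proj S'`, `S' = {z | (χ (z i))_i ∈ D'}`, and
`x ∈ S ↔ ∃ t, ((χ (x i))_i, χ t) ∈ R` with R the preimage of D' under (y, c) ↦ Fin.snoc y c; use hb. Then a projective set `S` of
any class gives `one S` Borel, so `one S ∈ Sg A k 1` by ps_borel. -/
theorem condB_of_elim {E : Type u} [Nonempty E] (A : ℕ → Set E) (hA : ⋃ n, A n = univ)
    (χ : E → ℕ → Bool) (hχ : MeasurableSpace.comap χ inferInstance = generateFrom (range A))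
    (hb : ∀ (n : ℕ) (R : Set ((Fin n → ℕ → Bool) × (ℕ → Bool))), MeasurableSet R →
      ∃ D : Set (Fin n → ℕ → Bool), MeasurableSet D ∧
        ∀ s : Fin n → E, (∃ t, ((fun i => χ (s i)), χ t) ∈ R) ↔ (fun i => χ (s i)) ∈ D)
    (k : ℕ) (hk : 1 ≤ k) : CondB A k := by
  rintro S ⟨l, hl, h | h⟩
  · exact ps_borel A hA 1 _ (j6_Sg A hA χ hχ hb l 1 _ h) k hk
  · exact ps_borel A hA 1 _ (MeasurableSet.compl_iff.mp (j6_Sg A hA χ hχ hb l 1 _ h)) k hk

end Pool.Agent.H679UL
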