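import Mathlib
import Pool.Agent.H679UL.Pi
import Pool.Agent.H679UL.Closure
import Pool.Agent.H679UL.Defs
import Pool.Agent.H507_U.NoSurj

set_option autoImplicit false

namespace Pool.Agent.H679UL

open Set MeasurableSpace
open scoped MeasureTheory
open Pool.Agent.H507_U (Bo Sig)

universe u

-- helper lemmas: names starting with j5_

/- TARGETS. Plain proof. `Pool.Agent.H507_U.exists_universal` gives a Borel `U ⊆ C × C × C`, C = ℕ → Bool, with: every Borel `B ⊆ C` is
`{a | ∃ d, (c, a, d) ∈ U}` for some c. Transport to `B ⊆ Fin (m+1) → C` by a measurable equivalence `(Fin (m+1) → C) ≃ᵐ C`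
(PolishSpace.measurableEquivOfNotCountable, as in that file). The σ-algebra `generateFrom (range A)` is `comap χ` for
`χ x n = decide (x ∈ A n)` (see comap_chi in Pool/Agent/H507_U/Positive.lean), and the σ-algebra of `E^m` is the comap under
`x ↦ (χ (x i))_i` (borel_pi and comap_iSup). Induction on k, for all m.
k = 1: `S = proj B`, `B = {z | (χ (z i))_i ∈ B'}`, code c of B'; `x ∈ S ↔ ∃ y u, (g t, (χ (snoc x y i))_i, g u) ∈ U` if g t = c (g is onto). So
`V = {(x,t) | ∃ y, ∃ u, ...}` = proj (proj (Borel subset of E^(m+3))), in PS by ps_borel and ps_proj.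
k + 1: `S = proj S'`, `S'ᶜ ∈ Sg A k (m+1)`, `V'` universal for Sg A k (m+1): `V = {(x,t) | ∃ y, ((x,y),t) ∉ V'}` = proj of a reindexing of the
complement of V' (swap the last two coordinates). -/
theorem j5_comap_chi {E : Type u} (A : ℕ → Set E) (χ : E → ℕ → Bool)
    (hχ : ∀ x n, χ x n = true ↔ x ∈ A n) :
    MeasurableSpace.comap χ inferInstance = generateFrom (range A) := by
  apply le_antisymm
  · have hm : Measurable[generateFrom (range A)] χ := by
      rw [@measurable_pi_iff]
      intro n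
      apply @measurable_to_countable' _ _ _ _ (generateFrom (range A))
      intro v
      cases v with
      | true =>
        have : (fun x => χ x n) ⁻¹' {true} = A n := by
          ext x; simp [hχ]
        rw [this]
        exact measurableSet_generateFrom ⟨n, rfl⟩
      | false =>
        have : (fun x => χ x n) ⁻¹' {false} = (A n)ᶜ := by
          ext x
          simp only [mem_preimage, mem_singleton_iff, mem_compl_iff, ← hχ x n,
            Bool.not_eq_true]
        rw [this]
        have h5 : MeasurableSet[generateFrom (range A)] (A n) :=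
          measurableSet_generateFrom ⟨n, rfl⟩
        exact @MeasurableSet.compl _ _ (generateFrom (range A)) h5
    exact hm.comap_le
  · apply generateFrom_le
    rintro _ ⟨n, rfl⟩
    refine ⟨{z | z n = true}, ?_, ?_⟩
    · show MeasurableSet ((fun z : ℕ → Bool => z n) ⁻¹' {true})
      exact measurable_pi_apply n (measurableSet_singleton true)
    · ext x
      exact hχ x n

theorem j5_pi_comap {E : Type u} (mE : MeasurableSpace E) (χ : E → ℕ → Bool)
    (hχ : MeasurableSpace.comap χ inferInstance = mE) (m : ℕ) (S : Set (Fin m → E))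
    (hS : MeasurableSet[@MeasurableSpace.pi (Fin m) (fun _ => E) (fun _ => mE)] S) :
    ∃ B : Set (Fin m → ℕ → Bool), MeasurableSet B ∧ S = {x | (fun i => χ (x i)) ∈ B} := by
  have h1 : @MeasurableSpace.pi (Fin m) (fun _ => E) (fun _ => mE) =
      MeasurableSpace.comap (fun (x : Fin m → E) (i : Fin m) => χ (x i)) MeasurableSpace.pi := by
    unfold MeasurableSpace.pi
    rw [MeasurableSpace.comap_iSup]
    refine iSup_congr fun i => ?_
    rw [← hχ, MeasurableSpace.comap_comp, MeasurableSpace.comap_comp]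
    rfl
  rw [h1] at hS
  obtain ⟨B, hB, rfl⟩ := hS
  exact ⟨B, hB, rfl⟩

theorem j5_snoc_swap {E : Type u} {m : ℕ} (x : Fin m → E) (t y : E) :
    (fun i : Fin (m + 2) => (Fin.snoc (Fin.snoc x t : Fin (m + 1) → E) y : Fin (m + 2) → E)
      (Equiv.swap (Fin.castSucc (Fin.last m)) (Fin.last (m + 1)) i)) =
      (Fin.snoc (Fin.snoc x y : Fin (m + 1) → E) t : Fin (m + 2) → E) := by
  funext i
  refine Fin.lastCases ?_ (fun i => ?_) i
  · rw [Equiv.swap_apply_right, Fin.snoc_castSucc, Fin.snoc_last, Fin.snoc_last]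
  · refine Fin.lastCases ?_ (fun j => ?_) i
    · rw [Equiv.swap_apply_left, Fin.snoc_last, Fin.snoc_castSucc, Fin.snoc_last]
    · rw [Equiv.swap_apply_of_ne_of_ne, Fin.snoc_castSucc, Fin.snoc_castSucc, Fin.snoc_castSucc,
        Fin.snoc_castSucc]
      · intro h
        have := congrArg Fin.val h
        simp at this
        omega
      · intro h
        have := congrArg Fin.val h
        simp at this
        omega

theorem j5_one {E : Type u} [Nonempty E] (A : ℕ → Set E) (hA : ⋃ n, A n = univ)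
    (g : E → ℕ → Bool) (hg : Measurable[generateFrom (range A)] g)
    (hs : Function.Surjective g) (m : ℕ) :
    ∃ V ∈ PS A (m + 1), ∀ S ∈ Sg A 1 m, ∃ c : ℕ → Bool, ∀ t : E, g t = c →
      ∀ x : Fin m → E, x ∈ S ↔ (Fin.snoc x t : Fin (m + 1) → E) ∈ V := by
  classical
  obtain ⟨U, hU, hUu⟩ := Pool.Agent.H507_U.exists_universal
  let χ : E → ℕ → Bool := fun x n => decide (x ∈ A n)
  have hχ : MeasurableSpace.comap χ inferInstance = generateFrom (range A) :=
    j5_comap_chi A χ (fun x n => by simp [χ])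
  -- the two uncountable Polish spaces
  have hnc1 : ¬ Countable (ℕ → Bool) := by
    rw [← Cardinal.mk_le_aleph0_iff, not_le]
    simp only [Cardinal.mk_pi, Cardinal.mk_fintype, Fintype.card_bool, Cardinal.prod_const,
      Cardinal.mk_nat, Cardinal.lift_id]
    exact_mod_cast Cardinal.cantor Cardinal.aleph0
  have hnc2 : ¬ Countable (Fin (m + 1) → ℕ → Bool) := by
    intro h
    apply hnc1
    have hinj : Function.Injective (fun (f : ℕ → Bool) (_ : Fin (m + 1)) => f) := by
      intro f g hfg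
      exact congrFun hfg 0
    exact hinj.countable
  have hp1 : PolishSpace (ℕ → Bool) := { }
  have hp2 : PolishSpace (Fin (m + 1) → ℕ → Bool) := { }
  let e : (Fin (m + 1) → ℕ → Bool) ≃ᵐ (ℕ → Bool) :=
    PolishSpace.measurableEquivOfNotCountable hnc2 hnc1
  let ρ : Fin (m + 1) → Fin (m + 3) := fun i =>
    if i = Fin.last m then Fin.castSucc (Fin.last (m + 1)) else Fin.castSucc (Fin.castSucc i)
  let W : Set (Fin (m + 3) → E) := {z | (g (z (Fin.castSucc (Fin.castSucc (Fin.last m)))),
    e (fun i => χ (z (ρ i))), g (z (Fin.last (m + 2)))) ∈ U}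
  have hW : MeasurableSet[generateFrom (Rect A (m + 3))] W := by
    rw [borel_pi A hA]
    let _ : MeasurableSpace E := generateFrom (range A)
    have hχm : Measurable χ := by
      rw [measurable_iff_comap_le]
      exact hχ.le
    have h1 : Measurable (fun z : Fin (m + 3) → E =>
        (g (z (Fin.castSucc (Fin.castSucc (Fin.last m)))), e (fun i => χ (z (ρ i))),
          g (z (Fin.last (m + 2))))) := by
      refine (hg.comp (measurable_pi_apply _)).prodMk (Measurable.prodMk ?_
        (hg.comp (measurable_pi_apply _)))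
      refine e.measurable.comp (measurable_pi_lambda _ fun i => ?_)
      exact hχm.comp (measurable_pi_apply _)
    exact h1 hU
  have hWP : W ∈ PS A (m + 3) := ⟨1, le_rfl, Or.inl (ps_borel A hA _ W hW 1 le_rfl)⟩
  refine ⟨proj (proj W), ps_proj A hA _ _ (ps_proj A hA _ _ hWP), ?_⟩
  rintro S ⟨B, hB, rfl⟩
  rw [borel_pi A hA] at hB
  obtain ⟨B', hB', rfl⟩ := j5_pi_comap _ χ hχ (m + 1) B hB
  obtain ⟨c, hc⟩ := hUu (e.symm ⁻¹' B') (e.symm.measurable hB')
  refine ⟨c, fun t ht x => ?_⟩
  have key : ∀ y u : E, (Fin.snoc (Fin.snoc (Fin.snoc x t : Fin (m + 1) → E) y :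
      Fin (m + 2) → E) u : Fin (m + 3) → E) ∈ W ↔
      (c, e (fun i => χ ((Fin.snoc x y : Fin (m + 1) → E) i)), g u) ∈ U := by
    intro y u
    have e1 : (fun i => χ ((Fin.snoc (Fin.snoc (Fin.snoc x t : Fin (m + 1) → E) y :
        Fin (m + 2) → E) u : Fin (m + 3) → E) (ρ i))) =
        fun i => χ ((Fin.snoc x y : Fin (m + 1) → E) i) := by
      funext i
      refine congrArg χ ?_
      refine Fin.lastCases ?_ (fun j => ?_) i
      · show (Fin.snoc (Fin.snoc (Fin.snoc x t : Fin (m + 1) → E) y :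
          Fin (m + 2) → E) u : Fin (m + 3) → E) (if Fin.last m = Fin.last m then _ else _) = _
        rw [if_pos rfl, Fin.snoc_castSucc, Fin.snoc_last, Fin.snoc_last]
      · show (Fin.snoc (Fin.snoc (Fin.snoc x t : Fin (m + 1) → E) y :
          Fin (m + 2) → E) u : Fin (m + 3) → E) (if Fin.castSucc j = Fin.last m then _ else _) = _
        rw [if_neg (Fin.castSucc_lt_last j).ne, Fin.snoc_castSucc, Fin.snoc_castSucc,
          Fin.snoc_castSucc, Fin.snoc_castSucc]
    show (g _, e _, g _) ∈ U ↔ _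
    rw [e1, Fin.snoc_castSucc, Fin.snoc_castSucc, Fin.snoc_last, Fin.snoc_last, ht]
  constructor
  · rintro ⟨y, hy⟩
    have h1 : e (fun i => χ ((Fin.snoc x y : Fin (m + 1) → E) i)) ∈ e.symm ⁻¹' B' := by
      show e.symm _ ∈ B'
      rw [MeasurableEquiv.symm_apply_apply]
      exact hy
    obtain ⟨d, hd⟩ := (hc _).1 h1
    obtain ⟨u, rfl⟩ := hs d
    exact ⟨y, u, (key y u).2 hd⟩
  · rintro ⟨y, u, hyu⟩
    refine ⟨y, ?_⟩
    have h1 := (hc _).2 ⟨g u, (key y u).1 hyu⟩
    have h2 : e.symm (e (fun i => χ ((Fin.snoc x y : Fin (m + 1) → E) i))) ∈ B' := h1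
    rw [MeasurableEquiv.symm_apply_apply] at h2
    exact h2

theorem universal {E : Type u} [Nonempty E] (A : ℕ → Set E) (hA : ⋃ n, A n = univ)
    (g : E → ℕ → Bool) (hg : Measurable[generateFrom (range A)] g)
    (hs : Function.Surjective g) (k : ℕ) (hk : 1 ≤ k) (m : ℕ) :
    ∃ V ∈ PS A (m + 1), ∀ S ∈ Sg A k m, ∃ c : ℕ → Bool, ∀ t : E, g t = c →
      ∀ x : Fin m → E, x ∈ S ↔ (Fin.snoc x t : Fin (m + 1) → E) ∈ V := by
  induction k, hk using Nat.le_induction generalizing m with
  | base => exact j5_one A hA g hg hs m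
  | succ k hk ih =>
    obtain ⟨V, hV, hu⟩ := ih (m + 1)
    obtain ⟨k', rfl⟩ : ∃ k', k = k' + 1 := ⟨k - 1, by omega⟩
    refine ⟨proj {x : Fin (m + 2) → E |
      (fun i => x (Equiv.swap (Fin.castSucc (Fin.last m)) (Fin.last (m + 1)) i)) ∈ Vᶜ},
      ps_proj A hA _ _ (ps_reindex A hA _ _ _ _ (ps_compl A _ _ hV)), ?_⟩
    rintro S ⟨S', hS', rfl⟩
    obtain ⟨c, hc⟩ := hu _ hS'
    refine ⟨c, fun t ht x => ?_⟩
    have key : ∀ y : E, (Fin.snoc x y : Fin (m + 1) → E) ∈ S' ↔
        (Fin.snoc (Fin.snoc x t : Fin (m + 1) → E) y : Fin (m + 2) → E) ∈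
        {x : Fin (m + 2) → E |
          (fun i => x (Equiv.swap (Fin.castSucc (Fin.last m)) (Fin.last (m + 1)) i)) ∈ Vᶜ} := by
      intro y
      have h1 := hc t ht (Fin.snoc x y)
      rw [Set.mem_ofPred_eq, j5_snoc_swap, Set.mem_compl_iff, ← h1, Set.mem_compl_iff, not_not]
    exact exists_congr key

/- Plain proof: if g is onto (so E is nonempty), take V for k and m = 1, and `D = {x | (x 0, x 0) ∉ V}`, in PS A 1 by ps_compl, ps_reindex; it is
`one S₀` for `S₀ = {e | (fun _ => e) ∈ D}`, so by hB `D ∈ Sg A k 1`; with its code c and g t = c: t ∈ D ↔ (t,t) ∈ V ↔ t ∉ D. -/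
theorem no_surj_N {E : Type u} (A : ℕ → Set E) (hA : ⋃ n, A n = univ) (k : ℕ) (hk : 1 ≤ k)
    (hB : CondB A k) (g : E → ℕ → Bool) (hg : Measurable[generateFrom (range A)] g) :
    ∃ t, ∀ x, g x ≠ t := by
  by_contra hcon
  push Not at hcon
  have hs : Function.Surjective g := hcon
  obtain ⟨e₀, -⟩ := hcon (fun _ => true)
  have : Nonempty E := ⟨e₀⟩
  obtain ⟨V, hV, hu⟩ := universal A hA g hg hs k hk 1
  let D : Set (Fin 1 → E) := {x | (fun i : Fin 2 => x ((fun _ => 0 : Fin 2 → Fin 1) i)) ∈ Vᶜ}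
  have hD : D ∈ PS A 1 := ps_reindex A hA 2 1 (fun _ => 0) Vᶜ (ps_compl A _ _ hV)
  let S₀ : Set E := {e | (fun _ => e) ∈ D}
  have hDS : one S₀ = D := by
    ext x
    show (fun _ : Fin 1 => x 0) ∈ D ↔ x ∈ D
    have : (fun _ : Fin 1 => x 0) = x := by
      funext i
      rw [Subsingleton.elim i 0]
    rw [this]
  have hP : Projective A S₀ := by
    unfold Projective
    rw [hDS]
    exact hD
  have hC : OfClass A k S₀ := hB S₀ hP
  unfold OfClass at hC
  rw [hDS] at hC
  obtain ⟨c, hc⟩ := hu D hC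
  obtain ⟨t, ht⟩ := hs c
  have h1 := hc t ht (fun _ => t)
  have h2 : (Fin.snoc (fun _ : Fin 1 => t) t : Fin 2 → E) = fun _ => t := by
    funext i
    refine Fin.lastCases ?_ (fun j => ?_) i
    · rw [Fin.snoc_last]
    · rw [Fin.snoc_castSucc]
  rw [h2] at h1
  have h3 : (fun _ : Fin 1 => t) ∈ D ↔ (fun _ : Fin 2 => t) ∉ V := Iff.rfl
  rw [h3] at h1
  exact iff_not_self h1.symm

end Pool.Agent.H679UL
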