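import Mathlib
import Pool.Agent.H679UL.Universal
import Pool.Agent.H679UL.Cover
import Pool.Agent.H679UL.Classes
import Pool.Agent.H507_U.Negative
import Pool.Agent.H507_U.Positive

/-!
`Phi` implies that there is no sequence of sets with (a) and (b)_k, for any k.
-/

set_option autoImplicit false

namespace Pool.Agent.H679UL

open Set MeasurableSpace
open scoped MeasureTheory
open Pool.Agent.H507_U (Bo Sig Phi dec dec_eq measurable_dec coding hierarchy_stops comap_chi)

universe u

theorem not_cond {W K : Type} {Lo : K → W → Prop} {N : W → List ℕ → ℕ}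
    {b : W → List ℕ → ℕ → ℕ → Prop} (hΦ : Phi W K Lo N b) (E : Type u) (A : ℕ → Set E) (k : ℕ)
    (hk : 1 ≤ k) : ¬ (CondA A ∧ CondB A k) := by
  classical
  rintro ⟨hA1, hA2⟩
  have hcov : ⋃ n, A n = univ := covered A hA1 k hk hA2
  obtain ⟨hG, hD⟩ := hΦ
  set χ : E → ℕ → Bool := fun x n => decide (x ∈ A n) with hχ
  have hχ' : ∀ x n, χ x n = true ↔ x ∈ A n := fun x n => by simp [hχ]
  set mE : MeasurableSpace E := generateFrom (range A) with hmE
  have hcomap : MeasurableSpace.comap χ inferInstance = mE := comap_chi A χ hχ'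
  -- the parameters
  choose g C hC using fun w => coding (N w) (b w)
  have hns : ∀ w, ∃ t, ∀ x, dec (g w) (χ x) ≠ t := by
    intro w
    apply no_surj_N A hcov k hk hA2
    apply (measurable_dec (g w)).comp
    rw [← hmE, ← hcomap]
    exact comap_measurable χ
  choose t ht using hns
  choose A' hA' hA'' using fun w => hC w (t w)
  obtain ⟨a, ha⟩ := hG A' (fun w s k => hA' w s k)
  set Z : Set (ℕ → Bool) := {z | ∃ w, Lo a w ∧ ∃ n, z = C w n} with hZ
  have hE : ∀ x, χ x ∈ Z := by
    intro x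
    obtain ⟨w, hw, y, hy⟩ := ha (fun n => χ x n = true)
    refine ⟨w, hw, ?_⟩
    rcases hA'' w (χ x) y hy with h | h
    · exact h
    · exact absurd (dec_eq h) (ht w x)
  have hdom : ∀ f : (ℕ → Bool) → ℕ → ℕ, ∃ h : ℕ → ℕ, ∀ z ∈ Z, ∃ k, ∀ n, k ≤ n → f z n ≤ h n := by
    intro f
    obtain ⟨h, hh⟩ := hD a (fun w n => (Finset.range (n + 1)).sup (fun i => f (C w i) n))
    refine ⟨h, ?_⟩
    rintro z ⟨w, hw, i, rfl⟩
    obtain ⟨k, hk⟩ := hh w hw
    refine ⟨max k i, fun n hn => ?_⟩
    refine le_trans ?_ (hk n ((le_max_left _ _).trans hn))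
    exact Finset.le_sup (f := fun i => f (C w i) n)
      (Finset.mem_range.mpr (Nat.lt_succ_of_le ((le_max_right _ _).trans hn)))
  obtain ⟨S, hS1, hS2⟩ := hA1 (Ordinal.omega0 + 2) (by
    have hlim : ∀ a : Ordinal.{0}, a < (Cardinal.aleph 1 : Cardinal.{0}).ord →
        a + 1 < (Cardinal.aleph 1 : Cardinal.{0}).ord := by
      intro a ha
      exact (Cardinal.isSuccLimit_ord (Cardinal.aleph0_le_aleph 1)).add_one_lt ha
    rw [← Cardinal.ord_aleph]
    have h0 : (Ordinal.omega0 : Ordinal.{0}) < (Cardinal.aleph 1 : Cardinal.{0}).ord := by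
      rw [Cardinal.ord_aleph, ← Ordinal.omega_zero]
      exact Ordinal.omega_lt_omega.mpr zero_lt_one
    have h2 : (Ordinal.omega0 : Ordinal.{0}) + 2 = Ordinal.omega0 + 1 + 1 := by
      rw [add_assoc, one_add_one_eq_two]
    rw [h2]
    exact hlim _ (hlim _ h0))
  exact hS2 (cl_of_sig A (hierarchy_stops A χ hχ' Z hE hdom S hS1))

end Pool.Agent.H679UL
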