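import Mathlib
import Pool.Agent.H679UL.ClaimB
import Pool.Agent.H679UL.PosDefs
import Pool.Agent.H507_U.Cat
import Pool.Agent.H507_U.Pts

set_option autoImplicit false

namespace Pool.Agent.H679UL

open Set MeasurableSpace
open scoped MeasureTheory
open Pool.Agent.H507_U (W pt g0 Star Sq)

universe u

/-- splitting off the last coordinate -/
def j11_homeo (n : ℕ) : (Fin (n + 1) → ZZ) ≃ₜ (Fin n → ZZ) × ZZ where
  toFun z := (fun i => z i.castSucc, z (Fin.last n))
  invFun p := Fin.snoc (α := fun _ => ZZ) p.1 p.2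
  left_inv z := by
    funext i
    refine Fin.lastCases ?_ (fun i => ?_) i <;> simp
  right_inv p := by
    refine Prod.ext ?_ ?_
    · funext i
      simp
    · simp
  continuous_toFun := by fun_prop
  continuous_invFun := by
    refine continuous_pi fun i => ?_
    refine Fin.lastCases ?_ (fun i => ?_) i
    · simpa using (continuous_snd : Continuous fun p : (Fin n → ZZ) × ZZ => p.2)
    · simp only [Fin.snoc_castSucc]
      exact ((continuous_apply i).comp continuous_fst :
        Continuous fun p : (Fin n → ZZ) × ZZ => p.1 i)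

theorem j11_snoc_meagre {n : ℕ} {B : Set ((Fin n → ZZ) × ZZ)} (hB : MeasurableSet B)
    (h : ∀ z', IsMeagre {u | (z', u) ∈ B}) :
    IsMeagre {z : Fin (n + 1) → ZZ | ((fun i : Fin n => z i.castSucc), z (Fin.last n)) ∈ B} := by
  have h1 : IsMeagre B := by
    refine Pool.Agent.H507_U.ku_prod hB ?_
    have h2 : {x | ¬ IsMeagre {y | (x, y) ∈ B}} = (∅ : Set (Fin n → ZZ)) := by
      rw [eq_empty_iff_forall_notMem]
      intro x hx
      exact hx (h x)
    rw [h2]
    exact IsMeagre.empty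
  exact h1.preimage_of_isOpenMap (j11_homeo n).continuous (j11_homeo n).isOpenMap

theorem j11_cpt (g : ℕ → ℕ) : Continuous fun w : W => pt g w :=
  Pool.Agent.H507_U.continuous_pt.comp (continuous_const.prodMk continuous_id)

theorem j11_ev_meas {n : ℕ} (s : Fin n → Fin 3) (p : Fin n → (ℕ → Bool) × (ℕ → ℕ)) :
    Measurable (ev s p) := by
  refine measurable_pi_lambda _ fun i => ?_
  unfold ev
  by_cases h0 : s i = 0
  · simp only [h0, if_true]
    exact measurable_const
  · by_cases h1 : s i = 1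
    · simp only [h0, h1, if_true, if_false]
      exact (j11_cpt (p i).2).measurable.comp (measurable_fst.comp (measurable_pi_apply i))
    · simp only [h0, h1, if_false]
      exact measurable_snd.comp (measurable_pi_apply i)

/-- first exceptional set -/
def j11_N1 {n : ℕ} (R : Set ((Fin n → ℕ → Bool) × (ℕ → Bool))) :
    Set ((Fin (n + 1) → ℕ → Bool) × (ℕ → ℕ)) :=
  {p | ((fun i : Fin n => p.1 i.castSucc), p.1 (Fin.last n)) ∈ R} ∩
    {p | IsMeagre {w : W | ((fun i : Fin n => p.1 i.castSucc), pt p.2 w) ∈ R}}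

/-- second exceptional set -/
def j11_N2 {n : ℕ} (R : Set ((Fin n → ℕ → Bool) × (ℕ → Bool))) :
    Set ((Fin (n + 1) → ℕ → Bool) × (ℕ → ℕ)) :=
  {p | ((fun i : Fin n => p.1 i.castSucc), p.1 (Fin.last n)) ∈ R} ∩
    {p | IsMeagre {u : ℕ → Bool | ((fun i : Fin n => p.1 i.castSucc), u) ∈ R}}

theorem j11_init_meas (n : ℕ) :
    Measurable fun x : Fin (n + 1) → ℕ → Bool => (fun i : Fin n => x i.castSucc) :=
  measurable_pi_lambda _ fun i => measurable_pi_apply _

theorem j11_meas0 {n : ℕ} {R : Set ((Fin n → ℕ → Bool) × (ℕ → Bool))} (hR : MeasurableSet R) :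
    MeasurableSet {p : (Fin (n + 1) → ℕ → Bool) × (ℕ → ℕ) |
      ((fun i : Fin n => p.1 i.castSucc), p.1 (Fin.last n)) ∈ R} :=
  (((j11_init_meas n).comp measurable_fst).prodMk
    ((measurable_pi_apply _).comp measurable_fst)) hR

theorem j11_meas1 {n : ℕ} {R : Set ((Fin n → ℕ → Bool) × (ℕ → Bool))} (hR : MeasurableSet R) :
    MeasurableSet (j11_N1 R) := by
  refine (j11_meas0 hR).inter ?_
  have hB : MeasurableSet {q : ((Fin (n + 1) → ℕ → Bool) × (ℕ → ℕ)) × W |
      ((fun i : Fin n => q.1.1 i.castSucc), pt q.1.2 q.2) ∈ R} := by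
    have h1 : Measurable fun q : ((Fin (n + 1) → ℕ → Bool) × (ℕ → ℕ)) × W =>
        pt q.1.2 q.2 :=
      Pool.Agent.H507_U.continuous_pt.measurable.comp
        ((measurable_snd.comp measurable_fst).prodMk measurable_snd)
    exact (((j11_init_meas n).comp (measurable_fst.comp measurable_fst)).prodMk h1) hR
  exact Pool.Agent.H507_U.meas_meagre hB

theorem j11_meas2 {n : ℕ} {R : Set ((Fin n → ℕ → Bool) × (ℕ → Bool))} (hR : MeasurableSet R) :
    MeasurableSet (j11_N2 R) := by
  refine (j11_meas0 hR).inter ?_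
  have hB : MeasurableSet {q : ((Fin (n + 1) → ℕ → Bool) × (ℕ → ℕ)) × (ℕ → Bool) |
      ((fun i : Fin n => q.1.1 i.castSucc), q.2) ∈ R} :=
    (((j11_init_meas n).comp (measurable_fst.comp measurable_fst)).prodMk measurable_snd) hR
  exact Pool.Agent.H507_U.meas_meagre hB

theorem j11_mg1 {n : ℕ} {R : Set ((Fin n → ℕ → Bool) × (ℕ → Bool))} (hR : MeasurableSet R)
    (s : Fin (n + 1) → Fin 3) (p : PN (n + 1)) (hs : s (Fin.last n) = 1)
    (hp : (p.1 (Fin.last n)).2 = p.2) : MG (j11_N1 R) s p := by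
  set y : (Fin n → ZZ) → Fin n → ℕ → Bool :=
    ev (fun i => s i.castSucc) (fun i => p.1 i.castSucc) with hy
  have hym : Measurable y := j11_ev_meas _ _
  set B : Set ((Fin n → ZZ) × ZZ) := {q | (y q.1, pt p.2 q.2.1) ∈ R} ∩
    {q | IsMeagre {w : W | (y q.1, pt p.2 w) ∈ R}} with hB
  have hR' : MeasurableSet {q : (Fin n → ZZ) × W | (y q.1, pt p.2 q.2) ∈ R} :=
    ((hym.comp measurable_fst).prodMk ((j11_cpt p.2).measurable.comp measurable_snd)) hR
  have hBm : MeasurableSet B := by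
    refine MeasurableSet.inter ?_ ?_
    · exact ((hym.comp measurable_fst).prodMk
        ((j11_cpt p.2).measurable.comp (measurable_fst.comp measurable_snd))) hR
    · exact measurable_fst (Pool.Agent.H507_U.meas_meagre hR')
  have h1 := j11_snoc_meagre hBm (fun z' => by
    by_cases hz : IsMeagre {w : W | (y z', pt p.2 w) ∈ R}
    · have h2 : IsMeagre (Prod.fst ⁻¹' {w : W | (y z', pt p.2 w) ∈ R} : Set ZZ) :=
        hz.preimage_of_isOpenMap continuous_fst isOpenMap_fst
      exact h2.mono fun u hu => hu.1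
    · have h2 : {u : ZZ | (z', u) ∈ B} = ∅ := by
        rw [eq_empty_iff_forall_notMem]
        intro u hu
        exact hz hu.2
      rw [h2]
      exact IsMeagre.empty)
  unfold MG
  refine h1.mono ?_
  intro z hz
  have e1 : ev s p.1 z (Fin.last n) = pt p.2 (z (Fin.last n)).1 := by
    unfold ev
    rw [hs, hp]
    simp
  have hz1 := hz.1
  have hz2 := hz.2
  simp only [mem_ofPred_eq] at hz1 hz2
  rw [e1] at hz1
  exact ⟨hz1, hz2⟩

theorem j11_mg2 {n : ℕ} {R : Set ((Fin n → ℕ → Bool) × (ℕ → Bool))} (hR : MeasurableSet R)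
    (s : Fin (n + 1) → Fin 3) (p : PN (n + 1)) (hs : s (Fin.last n) = 2) :
    MG (j11_N2 R) s p := by
  set y : (Fin n → ZZ) → Fin n → ℕ → Bool :=
    ev (fun i => s i.castSucc) (fun i => p.1 i.castSucc) with hy
  have hym : Measurable y := j11_ev_meas _ _
  set B : Set ((Fin n → ZZ) × ZZ) := {q | (y q.1, q.2.2) ∈ R} ∩
    {q | IsMeagre {u : ℕ → Bool | (y q.1, u) ∈ R}} with hB
  have hR' : MeasurableSet {q : (Fin n → ZZ) × (ℕ → Bool) | (y q.1, q.2) ∈ R} :=
    ((hym.comp measurable_fst).prodMk measurable_snd) hR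
  have hBm : MeasurableSet B := by
    refine MeasurableSet.inter ?_ ?_
    · exact ((hym.comp measurable_fst).prodMk (measurable_snd.comp measurable_snd)) hR
    · exact measurable_fst (Pool.Agent.H507_U.meas_meagre hR')
  have h1 := j11_snoc_meagre hBm (fun z' => by
    by_cases hz : IsMeagre {u : ℕ → Bool | (y z', u) ∈ R}
    · have h2 : IsMeagre (Prod.snd ⁻¹' {u : ℕ → Bool | (y z', u) ∈ R} : Set ZZ) :=
        hz.preimage_of_isOpenMap continuous_snd isOpenMap_snd
      exact h2.mono fun u hu => hu.1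
    · have h2 : {u : ZZ | (z', u) ∈ B} = ∅ := by
        rw [eq_empty_iff_forall_notMem]
        intro u hu
        exact hz hu.2
      rw [h2]
      exact IsMeagre.empty)
  unfold MG
  refine h1.mono ?_
  intro z hz
  have e1 : ev s p.1 z (Fin.last n) = (z (Fin.last n)).2 := by
    unfold ev
    rw [hs]
    simp
  have hz1 := hz.1
  have hz2 := hz.2
  simp only [mem_ofPred_eq] at hz1 hz2
  rw [e1] at hz1
  exact ⟨hz1, hz2⟩

theorem j11_snoc_inj {K : Type} {n : ℕ} (ν : Fin n → K) (μ : K) (hν : Function.Injective ν)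
    (hμ : ∀ i, ν i ≠ μ) : Function.Injective (Fin.snoc (α := fun _ => K) ν μ) := by
  intro i j
  refine Fin.lastCases ?_ (fun i => ?_) i
  · refine Fin.lastCases ?_ (fun j => ?_) j
    · intro _
      rfl
    · intro h
      simp only [Fin.snoc_last, Fin.snoc_castSucc] at h
      exact absurd h.symm (hμ j)
  · refine Fin.lastCases ?_ (fun j => ?_) j
    · intro h
      simp only [Fin.snoc_last, Fin.snoc_castSucc] at h
      exact absurd h (hμ i)
    · intro h
      simp only [Fin.snoc_castSucc] at h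
      rw [hν h]

theorem j11_key {K : Type} [LinearOrder K] [WellFoundedLT K] (σ : Sq K)
    (hK1 : ∀ a : K, (Iic a).Countable)
    (hK2 : ∀ a : K, ∃ b, a < b) (h1 : GenHN σ) (h2 : GenVN σ) (h3 : σ.Hit)
    (hk : ∀ β, Star (σ.k β)) (n : ℕ) (R : Set ((Fin n → ℕ → Bool) × (ℕ → Bool)))
    (hR : MeasurableSet R) :
    ∃ (δ : K) (D : Set (Fin n → ℕ → Bool)), MeasurableSet D ∧
      ∀ ν : Fin n → K, Function.Injective ν → (∀ i, δ < ν i) →
        ((∃ μ, ((fun i => σ.x (ν i)), σ.x μ) ∈ R) ↔ (fun i => σ.x (ν i)) ∈ D) := by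
  obtain ⟨ξ1, H1⟩ := claimB σ hK2 h1 h2 hk (j11_N1 R) (j11_meas1 hR)
  obtain ⟨ξ2, H2⟩ := claimB σ hK2 h1 h2 hk (j11_N2 R) (j11_meas2 hR)
  set δ : K := max ξ1 ξ2 with hδ
  have hδ1 : ξ1 ≤ δ := le_max_left _ _
  have hδ2 : ξ2 ≤ δ := le_max_right _ _
  have main : ∀ ν : Fin n → K, Function.Injective ν → (∀ i, δ < ν i) → ∀ μ, δ < μ →
      (∀ i, ν i ≠ μ) → ((fun i => σ.x (ν i)), σ.x μ) ∈ R →
      ∃ β, β ≤ δ ∧ ¬ IsMeagre {w : W | ((fun i => σ.x (ν i)), pt (σ.g β) w) ∈ R} := by
    intro ν hν hνδ μ hμδ hνμ hmem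
    set ν' : Fin (n + 1) → K := Fin.snoc (α := fun _ => K) ν μ with hν'
    have e1 : ∀ i : Fin n, ν' i.castSucc = ν i := fun i => by simp [hν']
    have e2 : ν' (Fin.last n) = μ := by simp [hν']
    have hinj : Function.Injective ν' := j11_snoc_inj ν μ hν hνμ
    have hlt : ∀ i, δ < ν' i := by
      intro i
      refine Fin.lastCases ?_ (fun i => ?_) i
      · rw [e2]
        exact hμδ
      · rw [e1]
        exact hνδ i
    by_cases hτ : σ.τ μ ≤ δ
    · refine ⟨σ.τ μ, hτ, fun hm => ?_⟩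
      refine H1 δ hδ1 ν' (σ.τ μ) hinj hlt hτ (j11_mg1 hR _ _ ?_ ?_) ⟨?_, ?_⟩
      · simp only [e2, hτ, if_true]
      · simp only [e2, hτ, if_true]
      · simp only [mem_ofPred_eq, e1, e2]
        exact hmem
      · simp only [mem_ofPred_eq, e1]
        exact hm
    · have hnm : ¬ IsMeagre {u : ℕ → Bool | ((fun i => σ.x (ν i)), u) ∈ R} := by
        intro hm
        refine H2 δ hδ2 ν' σ.bot hinj hlt (σ.bot_le δ) (j11_mg2 hR _ _ ?_) ⟨?_, ?_⟩
        · simp only [e2, hτ, if_false]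
        · simp only [mem_ofPred_eq, e1, e2]
          exact hmem
        · simp only [mem_ofPred_eq, e1]
          exact hm
      refine ⟨σ.bot, σ.bot_le δ, fun hm => hnm ?_⟩
      have e : σ.g σ.bot = g0 := if_pos rfl
      rw [e] at hm
      have hRm : MeasurableSet {u : ℕ → Bool | ((fun i => σ.x (ν i)), u) ∈ R} :=
        (measurable_const.prodMk measurable_id) hR
      exact Pool.Agent.H507_U.fact0 _ hRm hm
  refine ⟨δ, (⋃ β ∈ Iic δ, {x | ¬ IsMeagre {w : W | (x, pt (σ.g β) w) ∈ R}}) ∪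
      (⋃ μ ∈ Iic δ, {x | (x, σ.x μ) ∈ R}) ∪ ⋃ i : Fin n, {x | (x, x i) ∈ R}, ?_, ?_⟩
  · refine MeasurableSet.union (MeasurableSet.union ?_ ?_) ?_
    · refine MeasurableSet.biUnion (hK1 δ) fun β _ => ?_
      have hB : MeasurableSet {p : (Fin n → ℕ → Bool) × W | (p.1, pt (σ.g β) p.2) ∈ R} :=
        (measurable_fst.prodMk ((j11_cpt (σ.g β)).measurable.comp measurable_snd)) hR
      exact (Pool.Agent.H507_U.meas_meagre hB).compl
    · refine MeasurableSet.biUnion (hK1 δ) fun μ _ => ?_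
      exact (measurable_id.prodMk measurable_const) hR
    · refine MeasurableSet.iUnion fun i => ?_
      exact (measurable_id.prodMk (measurable_pi_apply i)) hR
  · intro ν hν hνδ
    constructor
    · rintro ⟨μ, hμ⟩
      by_cases hμδ : μ ≤ δ
      · left; right
        exact mem_biUnion (show μ ∈ Iic δ from hμδ) hμ
      · by_cases hμν : ∃ i, ν i = μ
        · right
          obtain ⟨i, rfl⟩ := hμν
          exact mem_iUnion.2 ⟨i, hμ⟩
        · left; left
          push Not at hμν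
          obtain ⟨β, hβ, hx⟩ := main ν hν hνδ μ (not_le.1 hμδ) hμν hμ
          exact mem_biUnion (show β ∈ Iic δ from hβ) hx
    · rintro ((hx | hx) | hx)
      · obtain ⟨β, hβ, hx⟩ := mem_iUnion₂.1 hx
        have hB : MeasurableSet {w : W | ((fun i => σ.x (ν i)), pt (σ.g β) w) ∈ R} :=
          (measurable_const.prodMk (j11_cpt (σ.g β)).measurable) hR
        obtain ⟨μ, -, hτ, hv⟩ := h3 _ hB hx β β
        refine ⟨μ, ?_⟩
        have e : σ.x μ = pt (σ.g β) (σ.v μ) := by rw [Sq.x, hτ]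
        rw [e]
        exact hv
      · obtain ⟨μ, hμ, hx⟩ := mem_iUnion₂.1 hx
        exact ⟨μ, hx⟩
      · obtain ⟨i, hx⟩ := mem_iUnion.1 hx
        exact ⟨ν i, hx⟩

/-- the projection is decided by a Borel set on `F` -/
def j11_good {K : Type} [LinearOrder K] (σ : Sq K) {n : ℕ}
    (R : Set ((Fin n → ℕ → Bool) × (ℕ → Bool))) (F : Set (Fin n → ℕ → Bool)) : Prop :=
  MeasurableSet F ∧ ∃ D : Set (Fin n → ℕ → Bool), MeasurableSet D ∧
    ∀ ν : Fin n → K, (fun i => σ.x (ν i)) ∈ F →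
      ((∃ μ, ((fun i => σ.x (ν i)), σ.x μ) ∈ R) ↔ (fun i => σ.x (ν i)) ∈ D)

theorem j11_good_iUnion {K : Type} [LinearOrder K] (σ : Sq K) {n : ℕ}
    (R : Set ((Fin n → ℕ → Bool) × (ℕ → Bool))) {ι : Type} [Countable ι]
    (F : ι → Set (Fin n → ℕ → Bool)) (h : ∀ a, j11_good σ R (F a)) :
    j11_good σ R (⋃ a, F a) := by
  choose hF D hD hDe using h
  refine ⟨MeasurableSet.iUnion hF, ⋃ a, (F a ∩ D a),
    MeasurableSet.iUnion fun a => (hF a).inter (hD a), ?_⟩
  intro ν hν
  obtain ⟨a, ha⟩ := mem_iUnion.1 hν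
  constructor
  · intro hP
    exact mem_iUnion.2 ⟨a, ha, (hDe a ν ha).1 hP⟩
  · intro hx
    obtain ⟨b, hb1, hb2⟩ := mem_iUnion.1 hx
    exact (hDe b ν hb1).2 hb2

theorem j11_good_union {K : Type} [LinearOrder K] (σ : Sq K) {n : ℕ}
    (R : Set ((Fin n → ℕ → Bool) × (ℕ → Bool))) (F F' : Set (Fin n → ℕ → Bool))
    (h : j11_good σ R F) (h' : j11_good σ R F') : j11_good σ R (F ∪ F') := by
  rw [union_eq_iUnion]
  refine j11_good_iUnion σ R _ fun b => ?_
  cases b
  · exact h'
  · exact h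

theorem j11_good_sec {K : Type} [LinearOrder K] (σ : Sq K) {m : ℕ}
    (IH : ∀ R : Set ((Fin m → ℕ → Bool) × (ℕ → Bool)), MeasurableSet R →
      ∃ D : Set (Fin m → ℕ → Bool), MeasurableSet D ∧
        ∀ ν : Fin m → K, (∃ μ, ((fun i => σ.x (ν i)), σ.x μ) ∈ R) ↔ (fun i => σ.x (ν i)) ∈ D)
    {R : Set ((Fin (m + 1) → ℕ → Bool) × (ℕ → Bool))} (hR : MeasurableSet R)
    (F : Set (Fin (m + 1) → ℕ → Bool)) (hF : MeasurableSet F) (i : Fin (m + 1))
    (e : (Fin m → ℕ → Bool) → Fin (m + 1) → ℕ → Bool) (he : Measurable e)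
    (hFe : ∀ x ∈ F, e (fun k => x (i.succAbove k)) = x) : j11_good σ R F := by
  obtain ⟨D, hD, hDe⟩ := IH {q | (e q.1, q.2) ∈ R}
    (((he.comp measurable_fst).prodMk measurable_snd) hR)
  refine ⟨hF, {x | (fun k => x (i.succAbove k)) ∈ D}, ?_, ?_⟩
  · exact (measurable_pi_lambda _ fun k => measurable_pi_apply _ :
      Measurable fun x : Fin (m + 1) → ℕ → Bool => (fun k : Fin m => x (i.succAbove k))) hD
  · intro ν hν
    have h1 := hDe (fun k => ν (i.succAbove k))
    have h2 : e (fun k => σ.x (ν (i.succAbove k))) = fun i => σ.x (ν i) := hFe _ hν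
    simp only [mem_ofPred_eq, h2] at h1
    exact h1

theorem proj_borelN {K : Type} [LinearOrder K] [WellFoundedLT K] (σ : Sq K)
    (hK1 : ∀ a : K, (Iic a).Countable)
    (hK2 : ∀ a : K, ∃ b, a < b) (h1 : GenHN σ) (h2 : GenVN σ) (h3 : σ.Hit)
    (hk : ∀ β, Star (σ.k β)) (n : ℕ) (R : Set ((Fin n → ℕ → Bool) × (ℕ → Bool)))
    (hR : MeasurableSet R) :
    ∃ D : Set (Fin n → ℕ → Bool), MeasurableSet D ∧
      ∀ ν : Fin n → K, (∃ μ, ((fun i => σ.x (ν i)), σ.x μ) ∈ R) ↔ (fun i => σ.x (ν i)) ∈ D := by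
  induction n with
  | zero =>
    obtain ⟨δ, D, hD, hDe⟩ := j11_key σ hK1 hK2 h1 h2 h3 hk 0 R hR
    exact ⟨D, hD, fun ν => hDe ν (fun i => i.elim0) (fun i => i.elim0)⟩
  | succ m ih =>
    obtain ⟨δ, D, hD, hDe⟩ := j11_key σ hK1 hK2 h1 h2 h3 hk (m + 1) R hR
    -- coordinates equal to a point of small index
    have hcnt : Countable (Iic δ) := (hK1 δ).to_subtype
    have g1 : j11_good σ R (⋃ a : Fin (m + 1) × Iic δ,
        {x : Fin (m + 1) → ℕ → Bool | x a.1 = σ.x a.2.1}) := by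
      refine j11_good_iUnion σ R _ fun a => ?_
      refine j11_good_sec σ ih hR _ ?_ a.1
        (fun y => (MeasurableEquiv.piFinSuccAbove (fun _ => ℕ → Bool) a.1).symm (σ.x a.2.1, y))
        ?_ ?_
      · exact (isClosed_eq (continuous_apply a.1) continuous_const).measurableSet
      · exact (MeasurableEquiv.piFinSuccAbove (fun _ => ℕ → Bool) a.1).symm.measurable.comp
          (measurable_const.prodMk measurable_id)
      · intro x hx
        have hx' : x a.1 = σ.x a.2.1 := hx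
        simp only [← hx']
        exact (MeasurableEquiv.piFinSuccAbove (fun _ => ℕ → Bool) a.1).symm_apply_apply x
    have g2 : j11_good σ R (⋃ a : Fin (m + 1) × Fin m,
        {x : Fin (m + 1) → ℕ → Bool | x a.1 = x (a.1.succAbove a.2)}) := by
      refine j11_good_iUnion σ R _ fun a => ?_
      refine j11_good_sec σ ih hR _ ?_ a.1
        (fun y => (MeasurableEquiv.piFinSuccAbove (fun _ => ℕ → Bool) a.1).symm (y a.2, y))
        ?_ ?_
      · have hc : IsClosed {x : Fin (m + 1) → ℕ → Bool | x a.1 = x (a.1.succAbove a.2)} :=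
          isClosed_eq (by fun_prop) (by fun_prop)
        exact hc.measurableSet
      · exact (MeasurableEquiv.piFinSuccAbove (fun _ => ℕ → Bool) a.1).symm.measurable.comp
          ((measurable_pi_apply a.2).prodMk measurable_id)
      · intro x hx
        have hx' : x a.1 = x (a.1.succAbove a.2) := hx
        simp only [← hx']
        exact (MeasurableEquiv.piFinSuccAbove (fun _ => ℕ → Bool) a.1).symm_apply_apply x
    have g12 := j11_good_union σ R _ _ g1 g2
    obtain ⟨hFm, D', hD', hDe'⟩ := g12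
    set F : Set (Fin (m + 1) → ℕ → Bool) := (⋃ a : Fin (m + 1) × Iic δ,
        {x : Fin (m + 1) → ℕ → Bool | x a.1 = σ.x a.2.1}) ∪ (⋃ a : Fin (m + 1) × Fin m,
        {x : Fin (m + 1) → ℕ → Bool | x a.1 = x (a.1.succAbove a.2)}) with hF
    refine ⟨(F ∩ D') ∪ (D \ F), (hFm.inter hD').union (hD.diff hFm), fun ν => ?_⟩
    by_cases hν : (fun i => σ.x (ν i)) ∈ F
    · rw [hDe' ν hν]
      constructor
      · intro h
        exact Or.inl ⟨hν, h⟩
      · rintro (h | h)
        · exact h.2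
        · exact absurd hν h.2
    · have hinj : Function.Injective ν := by
        intro i j hij
        by_contra hne
        obtain ⟨k, hk'⟩ := Fin.exists_succAbove_eq (x := j) (y := i) (fun h => hne h.symm)
        apply hν
        right
        refine mem_iUnion.2 ⟨(i, k), ?_⟩
        show σ.x (ν i) = σ.x (ν (i.succAbove k))
        rw [hk', hij]
      have hlt : ∀ i, δ < ν i := by
        intro i
        by_contra hle
        apply hν
        left
        exact mem_iUnion.2 ⟨(i, ⟨ν i, not_lt.1 hle⟩), rfl⟩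
      rw [hDe ν hinj hlt]
      constructor
      · intro h
        exact Or.inr ⟨h, hν⟩
      · rintro (h | h)
        · exact absurd h.1 hν
        · exact h.1

end Pool.Agent.H679UL
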