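import Mathlib
import Pool.Agent.H679UL.PosDefs
import Pool.Agent.H507_U.Seq

set_option autoImplicit false

namespace Pool.Agent.H679UL

open Set MeasurableSpace
open scoped MeasureTheory
open Pool.Agent.H507_U (W pt g0 Star Sq)

universe u

/-- codes for measurable sets, horizontal -/
abbrev j7_CH : Type := Σ n : ℕ, {B : Set ((PN n × (ℕ → ℕ)) × (ℕ → ℕ)) // MeasurableSet B}

/-- codes for measurable sets, vertical -/
abbrev j7_CV : Type := Σ n : ℕ, {B : Set (PN n × W) // MeasurableSet B}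

open Cardinal in
theorem j7_card {X : ℕ → Type} [∀ n, MeasurableSpace (X n)]
    [∀ n, MeasurableSpace.CountablyGenerated (X n)] :
    #(Σ n : ℕ, {B : Set (X n) // MeasurableSet B}) ≤ 𝔠 := by
  rw [Cardinal.mk_sigma]
  calc Cardinal.sum (fun n => #{B : Set (X n) // MeasurableSet B})
      ≤ Cardinal.sum (fun _ : ℕ => 𝔠) :=
        Cardinal.sum_le_sum _ _ (fun n => Pool.Agent.H507_U.es_card _)
    _ = 𝔠 := by
      rw [Cardinal.sum_const, Cardinal.lift_id, Cardinal.lift_id, Cardinal.mk_nat,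
        Cardinal.aleph0_mul_continuum]

/-- the parameter of the points and enumerations given by `F` -/
def j7_p {K : Type} [LinearOrder K] (bot : K) (k : K → ℕ → ℕ) (τ : K → K)
    (F : K → (ℕ → ℕ) × W) {n : ℕ} (μ β : Fin n → K) (γ : K) : PN n :=
  ((fun i => (Pool.Agent.H507_U.es_x bot k τ F (μ i), Pool.Agent.H507_U.es_g bot k F (β i))),
    Pool.Agent.H507_U.es_g bot k F γ)

/-- genericity of the function with index `ν` for one code -/
def j7_PH {K : Type} [LinearOrder K] (bot : K) (k : K → ℕ → ℕ) (τ : K → K)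
    (ν : K) (F : K → (ℕ → ℕ) × W) (E : j7_CH) : Prop :=
  ∀ (μ β : Fin E.1 → K) (γ : K), (∀ i, μ i < ν) → (∀ i, β i < ν) → γ < ν →
    IsMeagre {z | ((j7_p bot k τ F μ β γ, k ν), z) ∈ E.2.1} →
      ((j7_p bot k τ F μ β γ, k ν), (F ν).1) ∉ E.2.1

/-- genericity of the labelling with index `ν` for one code -/
def j7_PV {K : Type} [LinearOrder K] (bot : K) (k : K → ℕ → ℕ) (τ : K → K)
    (ν : K) (F : K → (ℕ → ℕ) × W) (E : j7_CV) : Prop :=
  ∀ (μ β : Fin E.1 → K) (γ : K), (∀ i, μ i < ν) → (∀ i, β i ≤ ν) → γ ≤ ν →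
    IsMeagre {z | (j7_p bot k τ F μ β γ, z) ∈ E.2.1} →
      (j7_p bot k τ F μ β γ, (F ν).2) ∉ E.2.1

theorem j7_p_congr {K : Type} [LinearOrder K] (bot : K) (k : K → ℕ → ℕ) (τ : K → K)
    (F F' : K → (ℕ → ℕ) × W) {n : ℕ} (μ β : Fin n → K) (γ : K)
    (h1 : ∀ i, Pool.Agent.H507_U.es_x bot k τ F (μ i) = Pool.Agent.H507_U.es_x bot k τ F' (μ i))
    (h2 : ∀ i, Pool.Agent.H507_U.es_g bot k F (β i) = Pool.Agent.H507_U.es_g bot k F' (β i))
    (h3 : Pool.Agent.H507_U.es_g bot k F γ = Pool.Agent.H507_U.es_g bot k F' γ) :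
    j7_p bot k τ F μ β γ = j7_p bot k τ F' μ β γ := by
  unfold j7_p
  rw [h3]
  congr 1
  funext i
  rw [h1, h2]

open Cardinal in
/- Plain proof: copy the proof of `Pool.Agent.H507_U.exists_seq` (Pool/Agent/H507_U/Seq.lean, 90 lines; its auxiliary lemmas es_rec, es_card,
es_surj, es_avoid, es_g, es_x ... can be cited, they are imported) with these changes: the enumerations eH, eV have values in
`Σ n, {B : Set ((PN n × (ℕ → ℕ)) × (ℕ → ℕ)) // MeasurableSet B}` and `Σ n, {B : Set (PN n × W) // MeasurableSet B}` (of cardinality ≤ 𝔠), and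
the countable index sets for stage ν are `Σ ξ : Iio ν, (Fin (eH ξ).1 → Iio ν) × (Fin (eH ξ).1 → Iio ν) × Iio ν` and similarly with Iic for
eV's enumerations. -/
theorem exists_seqN {K : Type} [LinearOrder K] [WellFoundedLT K]
    (hK1 : ∀ a : K, (Iio a).Countable) (hK2 : #K = 𝔠) (bot : K) (hbot : ∀ a, bot ≤ a)
    (k : K → ℕ → ℕ) :
    ∃ σ : Sq K, σ.bot = bot ∧ σ.k = k ∧ GenHN σ ∧ GenVN σ ∧ σ.Hit := by
  classical
  have hne1 : Nonempty j7_CH := ⟨⟨0, ∅, MeasurableSet.empty⟩⟩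
  have hne2 : Nonempty j7_CV := ⟨⟨0, ∅, MeasurableSet.empty⟩⟩
  have hne3 : Nonempty {B : Set W // MeasurableSet B} := ⟨⟨∅, MeasurableSet.empty⟩⟩
  have hneK : Nonempty K := ⟨bot⟩
  obtain ⟨eH, heH⟩ := Pool.Agent.H507_U.es_surj (K := K) (A := j7_CH)
    (by rw [hK2]; exact j7_card)
  obtain ⟨eV, heV⟩ := Pool.Agent.H507_U.es_surj (K := K) (A := j7_CV)
    (by rw [hK2]; exact j7_card)
  obtain ⟨φ, hφ⟩ := Pool.Agent.H507_U.es_surj (K := K)
    (A := K × {B : Set W // MeasurableSet B} × K) (by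
    simp only [Cardinal.mk_prod, Cardinal.lift_id, hK2]
    have h3 := Pool.Agent.H507_U.es_card W
    calc 𝔠 * (#{B : Set W // MeasurableSet B} * 𝔠) ≤ 𝔠 * (𝔠 * 𝔠) := by gcongr
      _ = 𝔠 := by rw [Cardinal.continuum_mul_self, Cardinal.continuum_mul_self])
  let τ : K → K := fun ν => if (φ ν).1 ≤ ν then (φ ν).1 else bot
  have hτ : ∀ ν, τ ν ≤ ν := by
    intro ν
    simp only [τ]
    split_ifs with h
    · exact h
    · exact hbot ν
  have hcIio : ∀ ν : K, Countable (Iio ν) := fun ν => (hK1 ν).to_subtype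
  have hcIic : ∀ ν : K, Countable (Iic ν) := by
    intro ν
    have : (Iic ν) = insert ν (Iio ν) := by
      ext a
      simp only [mem_Iic, mem_insert_iff, mem_Iio]
      exact le_iff_eq_or_lt
    rw [this]
    exact ((hK1 ν).insert ν).to_subtype
  let PH : K → (K → (ℕ → ℕ) × W) → Prop := fun ν F => ∀ ξ, ξ < ν → j7_PH bot k τ ν F (eH ξ)
  let PV : K → (K → (ℕ → ℕ) × W) → Prop := fun ν F => ∀ ξ, ξ < ν → j7_PV bot k τ ν F (eV ξ)
  let PT : K → (K → (ℕ → ℕ) × W) → Prop := fun ν F => ¬ IsMeagre (φ ν).2.1.1 → (F ν).2 ∈ (φ ν).2.1.1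
  obtain ⟨F, hF⟩ := Pool.Agent.H507_U.es_rec (K := K) (S := (ℕ → ℕ) × W)
    (fun ν F => PH ν F ∧ PV ν F ∧ PT ν F)
    (by
      intro ν F F' hFF' hP
      obtain ⟨h1, h2, h3⟩ := hP
      have hg : ∀ β, β ≤ ν → Pool.Agent.H507_U.es_g bot k F' β = Pool.Agent.H507_U.es_g bot k F β :=
        fun β hβ => Pool.Agent.H507_U.es_g_congr bot k F' F β (by rw [hFF' β hβ])
      have hx : ∀ μ, μ ≤ ν →
          Pool.Agent.H507_U.es_x bot k τ F' μ = Pool.Agent.H507_U.es_x bot k τ F μ := fun μ hμ =>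
        Pool.Agent.H507_U.es_x_congr bot k τ F' F μ (hFF' _ ((hτ μ).trans hμ)).symm
          (hFF' μ hμ).symm
      refine ⟨?_, ?_, ?_⟩
      · intro ξ hξ μ β γ hμ hβ hγ
        rw [j7_p_congr bot k τ F' F μ β γ (fun i => hx _ (hμ i).le) (fun i => hg _ (hβ i).le)
          (hg γ hγ.le), ← hFF' ν le_rfl]
        exact h1 ξ hξ μ β γ hμ hβ hγ
      · intro ξ hξ μ β γ hμ hβ hγ
        rw [j7_p_congr bot k τ F' F μ β γ (fun i => hx _ (hμ i).le) (fun i => hg _ (hβ i))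
          (hg γ hγ), ← hFF' ν le_rfl]
        exact h2 ξ hξ μ β γ hμ hβ hγ
      · intro hB
        rw [← hFF' ν le_rfl]
        exact h3 hB)
    (by
      intro ν F
      have hci := hcIio ν
      have hci' := hcIic ν
      obtain ⟨hh, hh1, -⟩ := Pool.Agent.H507_U.es_avoid (X := ℕ → ℕ)
        (I := Σ ξ : Iio ν, (Fin (eH ξ).1 → Iio ν) × (Fin (eH ξ).1 → Iio ν) × Iio ν)
        (fun i => {z | ((j7_p bot k τ F (fun j => (i.2.1 j : K)) (fun j => (i.2.2.1 j : K))
          (i.2.2.2 : K), k ν), z) ∈ (eH i.1).2.1}) ∅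
      let G : K → (ℕ → ℕ) × W := Function.update F ν (hh, (F ν).2)
      obtain ⟨vv, hv1, hv2⟩ := Pool.Agent.H507_U.es_avoid (X := W)
        (I := Σ ξ : Iio ν, (Fin (eV ξ).1 → Iio ν) × (Fin (eV ξ).1 → Iic ν) × Iic ν)
        (fun i => {z | (((fun j => (Pool.Agent.H507_U.es_x bot k τ F (i.2.1 j : K),
          Pool.Agent.H507_U.es_g bot k G (i.2.2.1 j : K))),
          Pool.Agent.H507_U.es_g bot k G (i.2.2.2 : K)), z)
          ∈ (eV i.1).2.1}) (φ ν).2.1.1
      refine ⟨(hh, vv), ?_⟩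
      set F' := Function.update F ν (hh, vv) with hF'
      have hFlt : ∀ μ, μ < ν → F' μ = F μ := fun μ hμ => Function.update_of_ne hμ.ne _ _
      have hFν : F' ν = (hh, vv) := Function.update_self _ _ _
      have hx : ∀ μ, μ < ν →
          Pool.Agent.H507_U.es_x bot k τ F' μ = Pool.Agent.H507_U.es_x bot k τ F μ := fun μ hμ =>
        Pool.Agent.H507_U.es_x_congr bot k τ F' F μ (hFlt _ ((hτ μ).trans_lt hμ)) (hFlt μ hμ)
      have hgl : ∀ β, β < ν →
          Pool.Agent.H507_U.es_g bot k F' β = Pool.Agent.H507_U.es_g bot k F β := fun β hβ =>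
        Pool.Agent.H507_U.es_g_congr bot k F' F β (by rw [hFlt β hβ])
      have hgG : ∀ β, β ≤ ν →
          Pool.Agent.H507_U.es_g bot k F' β = Pool.Agent.H507_U.es_g bot k G β := by
        intro β hβ
        apply Pool.Agent.H507_U.es_g_congr
        rcases hβ.lt_or_eq with h | rfl
        · rw [hFlt β h]
          simp only [G]
          rw [Function.update_of_ne h.ne]
        · rw [hFν]
          simp only [G]
          rw [Function.update_self]
      refine ⟨?_, ?_, ?_⟩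
      · intro ξ hξ μ β γ hμ hβ hγ
        rw [j7_p_congr bot k τ F' F μ β γ (fun i => hx _ (hμ i)) (fun i => hgl _ (hβ i))
          (hgl γ hγ), hFν]
        exact hh1 ⟨⟨ξ, hξ⟩, fun j => ⟨μ j, hμ j⟩, fun j => ⟨β j, hβ j⟩, ⟨γ, hγ⟩⟩
      · intro ξ hξ μ β γ hμ hβ hγ
        have he : j7_p bot k τ F' μ β γ = ((fun j => (Pool.Agent.H507_U.es_x bot k τ F (μ j),
          Pool.Agent.H507_U.es_g bot k G (β j))), Pool.Agent.H507_U.es_g bot k G γ) := by
          unfold j7_p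
          rw [hgG γ hγ]
          congr 1
          funext i
          rw [hx _ (hμ i), hgG _ (hβ i)]
        rw [he, hFν]
        exact hv1 ⟨⟨ξ, hξ⟩, fun j => ⟨μ j, hμ j⟩, fun j => ⟨β j, hβ j⟩, ⟨γ, hγ⟩⟩
      · intro hB
        rw [hFν]
        exact hv2 hB)
  let σ : Sq K := ⟨bot, hbot, k, fun ν => (F ν).1, fun ν => (F ν).2, τ, hτ⟩
  refine ⟨σ, rfl, rfl, ?_, ?_, ?_⟩
  · intro n B hB
    obtain ⟨ξ, hξ⟩ := heH ⟨n, B, hB⟩
    refine ⟨ξ, fun ν hν => ?_⟩
    have h1 := (hF ν).1 ξ hν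
    rw [hξ] at h1
    intro μ β γ hμ hβ hγ
    exact h1 μ β γ hμ hβ hγ
  · intro n B hB
    obtain ⟨ξ, hξ⟩ := heV ⟨n, B, hB⟩
    refine ⟨ξ, fun ν hν => ?_⟩
    have h1 := (hF ν).2.1 ξ hν
    rw [hξ] at h1
    intro μ β γ hμ hβ hγ
    exact h1 μ β γ hμ hβ hγ
  · intro B hB hBm β ν₀
    have hex : ∃ ν, max β ν₀ < ν ∧ φ ν ∈ {p : K × {B : Set W // MeasurableSet B} × K |
        p.1 = β ∧ p.2.1 = ⟨B, hB⟩} := by
      by_contra hcon
      push Not at hcon
      have hc : ∀ κ : K, ∃ ν, φ ν = (β, ⟨B, hB⟩, κ) := fun κ => hφ _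
      choose ψ hψ using hc
      have hinj : Function.Injective ψ := by
        intro a b hab
        have h1 := hψ a
        rw [hab, hψ b] at h1
        exact ((Prod.mk.inj (Prod.mk.inj h1).2).2).symm
      have hmem : ∀ κ, ψ κ ∈ Iic (max β ν₀) := by
        intro κ
        by_contra h
        rw [mem_Iic, not_le] at h
        refine hcon (ψ κ) h ?_
        rw [hψ κ]
        exact ⟨rfl, rfl⟩
      have hci := hcIic (max β ν₀)
      have hcK : Countable K :=
        Function.Injective.countable (f := fun κ => (⟨ψ κ, hmem κ⟩ : Iic (max β ν₀)))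
          (fun a b hab => hinj (Subtype.ext_iff.1 hab))
      have h1 : #K ≤ ℵ₀ := Cardinal.mk_le_aleph0_iff.2 hcK
      rw [hK2] at h1
      exact absurd h1 (not_le.2 Cardinal.aleph0_lt_continuum)
    obtain ⟨ν, hν, h1, h2⟩ := hex
    refine ⟨ν, (le_max_right _ _).trans_lt hν, ?_, ?_⟩
    · change τ ν = β
      simp only [τ]
      rw [h1, if_pos ((le_max_left _ _).trans_lt hν).le]
    · have h3 := (hF ν).2.2
      simp only [PT] at h3
      rw [h2] at h3
      exact h3 hBm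

/- Plain proof: n = 1 and the preimage of B under the map (((p, g'), k'), z) ↦ (((p 0).1, (p 0).2, k'), z). -/
theorem genH_of_genHN {K : Type} [LinearOrder K] (σ : Sq K) (h : GenHN σ) : σ.GenH := by
  intro B hB
  let f : (PN 1 × (ℕ → ℕ)) × (ℕ → ℕ) → Pool.Agent.H507_U.Par × (ℕ → ℕ) :=
    fun q => (((q.1.1.1 0).1, (q.1.1.1 0).2, q.1.2), q.2)
  have hf : Measurable f := by fun_prop
  obtain ⟨ξ, hξ⟩ := h 1 (f ⁻¹' B) (hf hB)
  refine ⟨ξ, fun ν hν μ hμ β hβ hm => ?_⟩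
  have h1 := hξ ν hν (fun _ => μ) (fun _ => β) μ (fun _ => hμ) (fun _ => hβ) hμ
  exact h1 hm

end Pool.Agent.H679UL
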