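import Mathlib
import Pool.Agent.H679UL.ProjN
import Pool.Agent.H679UL.SeqN
import Pool.Agent.H679UL.Elim
import Pool.Agent.H679UL.Classes
import Pool.Agent.H679UL.PosDefs
import Pool.Agent.H507_U.Positive

/-!
The continuum hypothesis gives a sequence of sets with (a) and with (b)_k for all k.
-/

set_option autoImplicit false

namespace Pool.Agent.H679UL

open Set MeasurableSpace Cardinal
open scoped MeasureTheory
open Pool.Agent.H507_U (Bo Sig W pt g0 Star Sq comap_chi exists_trees exists_leaf_enum long sig_pull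
  star_of_leaves Bc)
open Pool.Agent.Helper126.Sus.Forc (K1)
open Pool.Agent.R594.Star (exists_gt_K1 mk_K1 countable_Iio_K1)

universe u

theorem pos_of_continuum (hc : (𝔠 : Cardinal.{0}) = ℵ₁) (E : Type u) (hE : #E = 𝔠) :
    ∃ A : ℕ → Set E, CondA A ∧ ∀ k, 1 ≤ k → CondB A k := by
  classical
  obtain ⟨T, hT, hT2⟩ := exists_trees
  choose k hk1 hk2 using fun β => exists_leaf_enum (T β)
  have hne : Nonempty K1 := by
    rw [← Cardinal.mk_ne_zero_iff, mk_K1]
    exact (aleph_pos 1).ne'
  have hbot : ∃ bot : K1, ∀ a, bot ≤ a := by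
    refine ⟨(wellFounded_lt : WellFounded (fun a b : K1 => a < b)).min Set.univ univ_nonempty, ?_⟩
    intro a
    exact not_lt.mp ((wellFounded_lt : WellFounded (fun a b : K1 => a < b)).not_lt_min
      univ (mem_univ a))
  obtain ⟨bot, hbot⟩ := hbot
  obtain ⟨σ, -, hσk, hG, hV, hH⟩ := exists_seqN (K := K1) (fun a => countable_Iio_K1 a)
    (by rw [mk_K1, hc]) bot hbot k
  have hIic : ∀ a : K1, (Iic a).Countable := by
    intro a
    have h1 : Iic a ⊆ Iio a ∪ {a} := by
      intro x hx
      rcases (mem_Iic.mp hx).lt_or_eq with h | h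
      · exact Or.inl h
      · exact Or.inr h
    exact ((countable_Iio_K1 a).union (countable_singleton a)).mono h1
  have hgt : ∀ a : K1, ∃ b, a < b := by
    intro a
    obtain ⟨b, hb⟩ := exists_gt_K1 (countable_singleton a)
    exact ⟨b, hb a rfl⟩
  -- the surjection
  have hEK : ∃ e : E → K1, Function.Surjective e := by
    have h1 : Cardinal.lift.{u} #K1 ≤ Cardinal.lift.{0} #E := by
      rw [mk_K1, hE, lift_continuum, ← hc, lift_continuum]
    have h2 : Nonempty (K1 ↪ E) := by
      rw [← Cardinal.lift_mk_le']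
      exact h1
    obtain ⟨j⟩ := h2
    exact ⟨Function.invFun j, Function.invFun_surjective j.injective⟩
  obtain ⟨e, he⟩ := hEK
  have hneE : Nonempty E := by
    obtain ⟨a⟩ := hne
    obtain ⟨s, -⟩ := he a
    exact ⟨s⟩
  set χ : E → ℕ → Bool := fun s => σ.x (e s) with hχ
  set A : ℕ → Set E := fun n => {s | χ s n = true} with hA
  let A' : ℕ → Set E := fun n => Nat.casesOn n Set.univ A
  have hA'0 : A' 0 = Set.univ := rfl
  have hA's : ∀ n, A' (n + 1) = A n := fun n => rfl
  have hgen : generateFrom (range A') = generateFrom (range A) := by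
    apply le_antisymm
    · apply generateFrom_le
      rintro _ ⟨n, rfl⟩
      cases n with
      | zero => exact @MeasurableSet.univ E (generateFrom (range A))
      | succ n => exact measurableSet_generateFrom ⟨n, rfl⟩
    · apply generateFrom_le
      rintro _ ⟨n, rfl⟩
      exact measurableSet_generateFrom ⟨n + 1, rfl⟩
  have hcov : ⋃ n, A' n = Set.univ := by
    apply eq_univ_of_forall
    intro x
    exact mem_iUnion.2 ⟨0, mem_univ x⟩
  refine ⟨A', ?_, ?_⟩
  · intro α hα
    have hα2 : α + 2 < Ordinal.omega 1 := by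
      have hlim : ∀ a : Ordinal.{0}, a < (ℵ₁ : Cardinal.{0}).ord → a + 1 < (ℵ₁ : Cardinal.{0}).ord := by
        intro a ha
        exact (Cardinal.isSuccLimit_ord (aleph0_le_aleph 1)).add_one_lt ha
      rw [← Cardinal.ord_aleph] at hα ⊢
      have h2 : α + 2 = α + 1 + 1 := by rw [add_assoc, one_add_one_eq_two]
      rw [h2]
      exact hlim _ (hlim _ hα)
    obtain ⟨D, hD, hD'⟩ := long σ (genH_of_genHN σ hG) hH T (fun β => (hT β).1)
      (fun β n => by rw [hσk]; exact hk1 β n) (fun β s hs => by rw [hσk]; exact hk2 β s hs)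
      (α + 2) (hT2 _ hα2)
    refine ⟨χ ⁻¹' D, ?_, ?_⟩
    · show MeasurableSet[generateFrom (range A')] _
      rw [hgen, ← comap_chi A χ (fun _ _ => Iff.rfl)]
      exact ⟨D, hD, rfl⟩
    · intro hS
      have hS' : Sig A (α + 2) (χ ⁻¹' D) := sig_of_cl A A' (fun n => by
        cases n with
        | zero =>
          refine Sig.zero ?_
          have h3 : (Set.univ : Set E) = ∅ᶜ := compl_empty.symm
          show (Set.univ : Set E) ∈ _
          rw [h3]
          exact MeasureTheory.generateSetAlgebra.compl _ MeasureTheory.generateSetAlgebra.empty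
        | succ n => exact Sig.zero (MeasureTheory.generateSetAlgebra.base _ ⟨n, rfl⟩)) hS
      obtain ⟨C, hC, hC'⟩ := sig_pull A χ (fun _ _ => Iff.rfl) hS'
      obtain ⟨ν, hν⟩ := hD' C hC
      obtain ⟨s, rfl⟩ := he ν
      apply hν
      have h1 : s ∈ χ ⁻¹' D ↔ s ∈ χ ⁻¹' C := by rw [hC']
      exact h1
  · intro j hj
    apply condB_of_elim A' hcov χ (by rw [hgen]; exact comap_chi A χ (fun _ _ => Iff.rfl)) _ j hj
    intro n R hR
    obtain ⟨D, hD, hD'⟩ := proj_borelN σ hIic hgt hG hV hH (fun β => by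
      rw [hσk]
      exact Pool.Agent.H507_U.star_of_leaves (T β) (hT β).1 (hT β).2 _ (hk2 β)) n R hR
    refine ⟨D, hD, fun s => ?_⟩
    rw [← hD' (fun i => e (s i))]
    constructor
    · rintro ⟨t, h⟩
      exact ⟨e t, h⟩
    · rintro ⟨μ, h⟩
      obtain ⟨t, rfl⟩ := he μ
      exact ⟨t, h⟩

end Pool.Agent.H679UL
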